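import Mathlib

/-!
# MNS (MP_73b4f2_co): the mod 2 chain algebra of the octahedral sphere

`Al m` = functions on sign vectors; a sign vector `τ` stands for the simplex with the vertices
`±j` (`τ j = ±1`).
-/

set_option autoImplicit false

namespace Pool.Agent.MNS

/-- chains mod 2 of the octahedral sphere with `2 m` vertices (with the empty simplex) -/
abbrev Al (m : ℕ) : Type := (Fin m → SignType) → ZMod 2

/-- sign of a Boolean -/
def sg (b : Bool) : SignType := if b then 1 else -1

theorem sg_ne (b : Bool) : sg b ≠ 0 := by cases b <;> decide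

theorem neg_sg_ne (b : Bool) : -sg b ≠ 0 := by cases b <;> decide

theorem sg_not (b : Bool) : sg (!b) = -sg b := by cases b <;> decide

theorem z2 (a : ZMod 2) : a + a = 0 := CharTwo.add_self_eq_zero a

theorem al2 {m : ℕ} (a : Al m) : a + a = 0 := by
  funext τ
  exact z2 _

/-- boundary -/
def dl {m : ℕ} (u : Al m) : Al m := fun τ =>
  ∑ j, if τ j = 0 then u (Function.update τ j 1) + u (Function.update τ j (-1)) else 0

/-- antipode -/
def nu {m : ℕ} (u : Al m) : Al m := fun τ => u (-τ)

/-- the empty simplex -/
def one (m : ℕ) : Al m := fun τ => if τ = 0 then 1 else 0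

/-- multiplication with the vertex `l` -/
def mx {m : ℕ} (l : Fin m × Bool) (u : Al m) : Al m := fun τ =>
  if τ l.1 = sg l.2 then u (Function.update τ l.1 0) else 0

/-- `l` with the other sign -/
def opp {m : ℕ} (l : Fin m × Bool) : Fin m × Bool := (l.1, !l.2)

theorem dl_add {m : ℕ} (u v : Al m) : dl (u + v) = dl u + dl v := by
  funext τ
  simp only [dl, Pi.add_apply]
  rw [← Finset.sum_add_distrib]
  refine Finset.sum_congr rfl fun j _ => ?_
  split_ifs
  · ring
  · simp

theorem dl_zero {m : ℕ} : dl (0 : Al m) = 0 := by
  funext τ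
  simp [dl]

theorem mx_add {m : ℕ} (l : Fin m × Bool) (u v : Al m) : mx l (u + v) = mx l u + mx l v := by
  funext τ
  simp only [mx, Pi.add_apply]
  split_ifs
  · rfl
  · simp

theorem mx_zero {m : ℕ} (l : Fin m × Bool) : mx l (0 : Al m) = 0 := by
  funext τ
  simp [mx]

theorem nu_add {m : ℕ} (u v : Al m) : nu (u + v) = nu u + nu v := rfl

theorem nu_zero {m : ℕ} : nu (0 : Al m) = 0 := rfl

theorem nu_one (m : ℕ) : nu (one m) = one m := by
  funext τ
  have h : -τ = 0 ↔ τ = 0 := by
    constructor
    · intro h
      funext k
      have h1 := congrFun h k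
      simpa using h1
    · intro h
      funext k
      have h1 := congrFun h k
      simpa using h1
  simp only [nu, one, h]

theorem dl_one (m : ℕ) : dl (one m) = 0 := by
  funext τ
  simp only [dl, one, Pi.zero_apply]
  refine Finset.sum_eq_zero fun j _ => ?_
  split_ifs with h1 h2 h3 h3
  · exact absurd (congrFun h2 j) (by simp)
  · exact absurd (congrFun h2 j) (by simp)
  · exact absurd (congrFun h3 j) (by simp)
  · simp
  · rfl

theorem neg_update {m : ℕ} (τ : Fin m → SignType) (j : Fin m) (s : SignType) :
    -(Function.update τ j s) = Function.update (-τ) j (-s) := by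
  funext k
  by_cases hk : k = j
  · subst hk
    simp
  · simp [Function.update_of_ne hk]

theorem dl_nu {m : ℕ} (u : Al m) : dl (nu u) = nu (dl u) := by
  funext τ
  simp only [dl, nu, neg_update]
  refine Finset.sum_congr rfl fun j _ => ?_
  have h : (-τ) j = 0 ↔ τ j = 0 := by simp
  by_cases hj : τ j = 0
  · rw [if_pos hj, if_pos (h.2 hj), neg_neg, add_comm]
  · rw [if_neg hj, if_neg (fun h' => hj (h.1 h'))]

theorem nu_mx {m : ℕ} (l : Fin m × Bool) (u : Al m) : nu (mx l u) = mx (opp l) (nu u) := by
  funext τ
  simp only [nu, mx, opp, neg_update, sg_not, neg_zero]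
  have h : (-τ) l.1 = sg l.2 ↔ τ l.1 = -sg l.2 := by
    rw [Pi.neg_apply, neg_eq_iff_eq_neg]
  by_cases hj : τ l.1 = -sg l.2
  · rw [if_pos hj, if_pos (h.2 hj)]
  · rw [if_neg hj, if_neg (fun h' => hj (h.1 h'))]

/-- the Leibniz rule, if the vertex opposite to `l` does not occur -/
theorem dl_mx {m : ℕ} (l : Fin m × Bool) (u : Al m)
    (hu : ∀ τ : Fin m → SignType, τ l.1 = -sg l.2 → u τ = 0) : dl (mx l u) = u + mx l (dl u) := by
  obtain ⟨j, b⟩ := l
  simp only at hu
  funext τ
  simp only [Pi.add_apply]
  -- split off the term `j` of a sum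
  have split : ∀ (w : Al m) (σ : Fin m → SignType), dl w σ =
      (if σ j = 0 then w (Function.update σ j 1) + w (Function.update σ j (-1)) else 0) +
      ∑ k ∈ Finset.univ.erase j,
        if σ k = 0 then w (Function.update σ k 1) + w (Function.update σ k (-1)) else 0 := by
    intro w σ
    exact (Finset.add_sum_erase Finset.univ
      (fun k => if σ k = 0 then w (Function.update σ k 1) + w (Function.update σ k (-1)) else 0)
      (Finset.mem_univ j)).symm
  have e1 : ∀ k ∈ Finset.univ.erase j, ∀ s : SignType,
      mx (j, b) u (Function.update τ k s) =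
        if τ j = sg b then u (Function.update (Function.update τ j 0) k s) else 0 := by
    intro k hk s
    have hkj : k ≠ j := Finset.ne_of_mem_erase hk
    simp only [mx]
    rw [Function.update_of_ne hkj.symm, Function.update_comm hkj.symm]
  by_cases hz : τ j = 0
  · -- `τ j = 0`
    have hne : τ j ≠ sg b := by rw [hz]; exact (sg_ne b).symm
    have h1 : mx (j, b) (dl u) τ = 0 := by
      simp only [mx]
      rw [if_neg hne]
    have h2 : mx (j, b) u (Function.update τ j 1) + mx (j, b) u (Function.update τ j (-1)) =
        u τ := by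
      simp only [mx, Function.update_self, Function.update_idem]
      have h3 : Function.update τ j 0 = τ := by
        rw [← hz]
        exact Function.update_eq_self j τ
      rw [h3]
      cases b
      · simp [sg]
      · simp [sg]
    rw [split, if_pos hz, h2, h1]
    rw [Finset.sum_eq_zero]
    intro k hk
    rw [e1 k hk, e1 k hk, if_neg hne, if_neg hne]
    simp
  · rw [split, if_neg hz, zero_add]
    by_cases hs : τ j = sg b
    · -- `τ j = sg b`
      have h1 : mx (j, b) (dl u) τ = dl u (Function.update τ j 0) := by
        simp only [mx]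
        rw [if_pos hs]
      rw [h1, split, if_pos (Function.update_self j 0 τ)]
      simp only [Function.update_idem]
      have h2 : u (Function.update τ j 1) + u (Function.update τ j (-1)) = u τ := by
        have h3 : ∀ s : SignType, s = -sg b → u (Function.update τ j s) = 0 := by
          intro s hs'
          refine hu _ ?_
          rw [Function.update_self]
          exact hs'
        have h4 : ∀ s : SignType, s = sg b → u (Function.update τ j s) = u τ := by
          intro s hs'
          rw [hs', ← hs, Function.update_eq_self]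
        cases b
        · rw [h3 1 (by decide), h4 (-1) (by decide), zero_add]
        · rw [h3 (-1) (by decide), h4 1 (by decide), add_zero]
      rw [h2, ← add_assoc, z2, zero_add]
      refine Finset.sum_congr rfl fun k hk => ?_
      have hkj : k ≠ j := Finset.ne_of_mem_erase hk
      rw [e1 k hk, e1 k hk, if_pos hs, if_pos hs, Function.update_of_ne hkj]
    · -- `τ j = - sg b`
      have h0 : τ j = -sg b := by
        cases b
        · revert hz hs
          generalize τ j = s
          cases s <;> decide
        · revert hz hs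
          generalize τ j = s
          cases s <;> decide
      have h1 : mx (j, b) (dl u) τ = 0 := by
        simp only [mx]
        rw [if_neg hs]
      rw [h1, hu τ h0]
      simp only [add_zero]
      refine Finset.sum_eq_zero fun k hk => ?_
      rw [e1 k hk, e1 k hk, if_neg hs, if_neg hs]
      simp

/-! ### elimination -/

/-- boundary with respect to the decomposition of the first coordinate -/
theorem dl_cons {m : ℕ} (u : Al (m + 1)) (s : SignType) (τ : Fin m → SignType) :
    dl u (Fin.cons s τ) =
      (if s = 0 then u (Fin.cons 1 τ) + u (Fin.cons (-1) τ) else 0) +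
        dl (fun σ : Fin m → SignType => u (Fin.cons s σ)) τ := by
  unfold dl
  rw [Fin.sum_univ_succ]
  simp only [Fin.cons_zero, Fin.update_cons_zero, Fin.cons_succ, ← Fin.cons_update]

theorem neg_cons {m : ℕ} (s : SignType) (τ : Fin m → SignType) :
    -(Fin.cons s τ : Fin (m + 1) → SignType) = Fin.cons (-s) (-τ) := by
  funext k
  refine Fin.cases ?_ (fun i => ?_) k
  · simp
  · simp

theorem one_cons {m : ℕ} (τ : Fin m → SignType) :
    one (m + 1) (Fin.cons 0 τ) = one m τ := by
  unfold one
  have : (Fin.cons 0 τ : Fin (m + 1) → SignType) = 0 ↔ τ = 0 := by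
    constructor
    · intro h
      funext k
      have := congrFun h k.succ
      simpa using this
    · intro h
      funext k
      refine Fin.cases ?_ (fun i => ?_) k
      · simp
      · simp [h]
  simp only [this]

theorem one_cons_ne {m : ℕ} (s : SignType) (hs : s ≠ 0) (τ : Fin m → SignType) :
    one (m + 1) (Fin.cons s τ) = 0 := by
  unfold one
  rw [if_neg]
  intro h
  exact hs (by simpa using congrFun h 0)

/-- There is no equivariant chain map from a sphere of dimension `m` to the octahedral sphere of
dimension `m - 1`. -/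
theorem elim (m : ℕ) : ∀ (P : ℕ → Al m) (U : Al m), dl (P 0) = one m + (U + nu U) →
    (∀ d < m, dl (P (d + 1)) = P d + nu (P d)) → False := by
  induction m with
  | zero =>
    intro P U h0 _
    have h1 := congrFun h0 (fun i => i.elim0)
    have h2 : dl (P 0) (fun i : Fin 0 => i.elim0) = 0 := by
      unfold dl
      simp
    have h3 : nu U (fun i : Fin 0 => i.elim0) = U (fun i : Fin 0 => i.elim0) := by
      unfold nu
      congr 1
      funext i
      exact i.elim0
    have h4 : one 0 (fun i : Fin 0 => i.elim0) = 1 := by
      unfold one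
      rw [if_pos]
      funext i
      exact i.elim0
    rw [h2, Pi.add_apply, Pi.add_apply, h3, h4, z2] at h1
    exact absurd h1 (by decide)
  | succ m ih =>
    intro P U h0 hP
    refine ih (fun d τ => P (d + 1) (Fin.cons 1 τ) + P d (Fin.cons 0 (-τ)))
      (fun τ => P 0 (Fin.cons 1 τ) + U (Fin.cons 0 τ)) ?_ ?_
    · funext τ
      have a1 := congrFun (hP 0 (by omega)) (Fin.cons 1 τ)
      rw [dl_cons] at a1
      have a2 := congrFun h0 (Fin.cons 0 (-τ))
      rw [dl_cons] at a2
      have a3 : dl (fun σ : Fin m → SignType => P (0 + 1) (Fin.cons 1 σ) +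
          P 0 (Fin.cons 0 (-σ))) τ = dl (fun σ : Fin m → SignType => P (0 + 1) (Fin.cons 1 σ)) τ +
          dl (fun σ : Fin m → SignType => P 0 (Fin.cons 0 σ)) (-τ) := by
        have b1 := congrFun (dl_add (fun σ : Fin m → SignType => P (0 + 1) (Fin.cons 1 σ))
          (nu (fun σ : Fin m → SignType => P 0 (Fin.cons 0 σ)))) τ
        rw [dl_nu] at b1
        exact b1
      show dl (fun σ : Fin m → SignType => P (0 + 1) (Fin.cons 1 σ) +
          P 0 (Fin.cons 0 (-σ))) τ = _
      rw [a3]
      simp only [Pi.add_apply, nu, neg_cons, neg_zero, neg_neg, one_cons, if_true,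
        if_neg (show (1 : SignType) ≠ 0 by decide), zero_add] at a1 a2 ⊢
      have c1 : one m (-τ) = one m τ := congrFun (nu_one m) τ
      rw [c1] at a2
      revert a1 a2
      generalize dl (fun σ : Fin m → SignType => P 1 (Fin.cons 1 σ)) τ = x1
      generalize dl (fun σ : Fin m → SignType => P 0 (Fin.cons 0 σ)) (-τ) = x2
      generalize P 0 (Fin.cons 1 τ) = x3
      generalize P 0 (Fin.cons (-1) (-τ)) = x4
      generalize P 0 (Fin.cons 1 (-τ)) = x5
      generalize one m τ = x6
      generalize U (Fin.cons 0 (-τ)) = x7
      generalize U (Fin.cons 0 τ) = x8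
      intro a1 a2
      subst a1
      revert x2 x3 x4 x5 x6 x7 x8
      decide
    · intro d hd
      funext τ
      have a1 := congrFun (hP (d + 1) (by omega)) (Fin.cons 1 τ)
      rw [dl_cons] at a1
      have a2 := congrFun (hP d (by omega)) (Fin.cons 0 (-τ))
      rw [dl_cons] at a2
      have a3 : dl (fun σ : Fin m → SignType => P (d + 1 + 1) (Fin.cons 1 σ) +
          P (d + 1) (Fin.cons 0 (-σ))) τ =
          dl (fun σ : Fin m → SignType => P (d + 1 + 1) (Fin.cons 1 σ)) τ +
          dl (fun σ : Fin m → SignType => P (d + 1) (Fin.cons 0 σ)) (-τ) := by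
        have b1 := congrFun (dl_add (fun σ : Fin m → SignType => P (d + 1 + 1) (Fin.cons 1 σ))
          (nu (fun σ : Fin m → SignType => P (d + 1) (Fin.cons 0 σ)))) τ
        rw [dl_nu] at b1
        exact b1
      show dl (fun σ : Fin m → SignType => P (d + 1 + 1) (Fin.cons 1 σ) +
          P (d + 1) (Fin.cons 0 (-σ))) τ = _
      rw [a3]
      simp only [Pi.add_apply, nu, neg_cons, neg_zero, neg_neg, if_true,
        if_neg (show (1 : SignType) ≠ 0 by decide), zero_add] at a1 a2 ⊢
      revert a1 a2
      generalize dl (fun σ : Fin m → SignType => P (d + 1 + 1) (Fin.cons 1 σ)) τ = x1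
      generalize dl (fun σ : Fin m → SignType => P (d + 1) (Fin.cons 0 σ)) (-τ) = x2
      generalize P (d + 1) (Fin.cons 1 τ) = x3
      generalize P (d + 1) (Fin.cons (-1) (-τ)) = x4
      generalize P (d + 1) (Fin.cons 1 (-τ)) = x5
      generalize P d (Fin.cons 0 (-τ)) = x6
      generalize P d (Fin.cons 0 τ) = x7
      intro a1 a2
      subst a1
      revert x2 x3 x4 x5 x6 x7
      decide

end Pool.Agent.MNS
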