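import Pool.Agent.MNS.Fun

/-!
# MNS (MP_73b4f2_co): sums of two vectors with prescribed block weights
-/

set_option autoImplicit false

namespace Pool.Agent.MNS

/-- A set `P` of size `a` in `B` such that the symmetric difference with `U` has size `|B| - a`. -/
theorem split_block {α : Type} [DecidableEq α] (B U : Finset α) (a : ℕ) (hU : U ⊆ B)
    (hpar : U.card % 2 = B.card % 2) (h1 : 2 * a ≤ B.card + U.card)
    (h2 : B.card ≤ 2 * a + U.card) :
    ∃ P ⊆ B, P.card = a ∧ (symmDiff P U).card = B.card - a := by
  have hle := Finset.card_le_card hU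
  have h3 : (B.card - U.card) / 2 * 2 = B.card - U.card := by omega
  set c := (B.card - U.card) / 2 with hc
  obtain ⟨P1, hP1, hP1c⟩ := Finset.exists_subset_card_eq (s := U) (n := a - c) (by omega)
  obtain ⟨C1, hC1, hC1c⟩ := Finset.exists_subset_card_eq (s := B \ U) (n := c) (by
    rw [Finset.card_sdiff_of_subset hU]
    omega)
  have hdis : Disjoint P1 C1 := by
    rw [Finset.disjoint_left]
    intro j h4 h5
    exact (Finset.mem_sdiff.1 (hC1 h5)).2 (hP1 h4)
  refine ⟨P1 ∪ C1, ?_, ?_, ?_⟩
  · refine Finset.union_subset (hP1.trans hU) (hC1.trans Finset.sdiff_subset)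
  · rw [Finset.card_union_of_disjoint hdis, hP1c, hC1c]
    omega
  · have h4 : symmDiff (P1 ∪ C1) U = (U \ P1) ∪ C1 := by
      ext j
      rw [Finset.mem_symmDiff, Finset.mem_union, Finset.mem_union, Finset.mem_sdiff]
      have h5 : j ∈ P1 → j ∈ U := fun h => hP1 h
      have h6 : j ∈ C1 → j ∉ U := fun h => (Finset.mem_sdiff.1 (hC1 h)).2
      tauto
    rw [h4, Finset.card_union_of_disjoint, Finset.card_sdiff_of_subset hP1, hP1c, hC1c]
    · omega
    · rw [Finset.disjoint_left]
      intro j h5 h6
      exact (Finset.mem_sdiff.1 (hC1 h6)).2 (Finset.mem_sdiff.1 h5).1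

/-- number of nonzero coordinates in the block `l` -/
def wt {n q : ℕ} (β : Fin n → Option (Fin q)) (l : Fin q) (x : Fin n → ZMod 2) : ℕ :=
  (Finset.univ.filter fun j => β j = some l ∧ x j ≠ 0).card

/-- size of the block -/
def sz {n q : ℕ} (β : Fin n → Option (Fin q)) (l : Fin q) : ℕ :=
  (Finset.univ.filter fun j => β j = some l).card

/-- `y` is obtained from `x` by decreasing in the block `none` and permuting in the other blocks -/
def Dom {n q : ℕ} (β : Fin n → Option (Fin q)) (x y : Fin n → ZMod 2) : Prop :=
  (∀ j, β j = none → y j ≠ 0 → x j ≠ 0) ∧ ∀ l, wt β l y = wt β l x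

theorem zcase (p : ZMod 2) : p = 0 ∨ p = 1 := by
  revert p
  decide

/-- the part of the block `l` in which `x` and `y` differ -/
def df {n q : ℕ} (β : Fin n → Option (Fin q)) (x y : Fin n → ZMod 2) (l : Fin q) :
    Finset (Fin n) := Finset.univ.filter fun j => β j = some l ∧ x j ≠ y j

/-- Decomposition of `T` into vectors dominated by `X` and `Y`. -/
theorem decomp {n q : ℕ} (β : Fin n → Option (Fin q)) (X Y T : Fin n → ZMod 2)
    (hZ : ∀ j, X j = Y j → T j = 0)
    (hpar : ∀ l, ((df β X Y l).filter fun j => T j ≠ 0).card % 2 = (df β X Y l).card % 2)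
    (h1 : ∀ l, 2 * ((df β X Y l).filter fun j => X j ≠ 0).card ≤
      (df β X Y l).card + ((df β X Y l).filter fun j => T j ≠ 0).card)
    (h2 : ∀ l, (df β X Y l).card ≤ 2 * ((df β X Y l).filter fun j => X j ≠ 0).card +
      ((df β X Y l).filter fun j => T j ≠ 0).card) :
    ∃ P Q : Fin n → ZMod 2, P + Q = T ∧ Dom β X P ∧ Dom β Y Q := by
  classical
  have h3 : ∀ l, ∃ P ⊆ df β X Y l, P.card = ((df β X Y l).filter fun j => X j ≠ 0).card ∧
      (symmDiff P ((df β X Y l).filter fun j => T j ≠ 0)).card =
        (df β X Y l).card - ((df β X Y l).filter fun j => X j ≠ 0).card := fun l =>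
    split_block (df β X Y l) ((df β X Y l).filter fun j => T j ≠ 0)
      ((df β X Y l).filter fun j => X j ≠ 0).card (Finset.filter_subset _ _) (hpar l) (h1 l) (h2 l)
  choose Pl hPl hPc hQc using h3
  set P : Fin n → ZMod 2 := fun j => match β j with
    | none => X j * T j
    | some l => if j ∈ df β X Y l then (if j ∈ Pl l then 1 else 0) else X j with hP
  have hPn : ∀ j, β j = none → P j = X j * T j := by
    intro j hj
    simp only [hP]
    rw [hj]
  have hPs : ∀ j l, β j = some l →
      P j = if j ∈ df β X Y l then (if j ∈ Pl l then 1 else 0) else X j := by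
    intro j l hj
    simp only [hP]
    rw [hj]
  have hdf : ∀ j l, j ∈ df β X Y l ↔ β j = some l ∧ X j ≠ Y j := by
    intro j l
    unfold df
    rw [Finset.mem_filter]
    simp
  -- the common part of the block
  set Cm : Fin q → Finset (Fin n) := fun l =>
    Finset.univ.filter fun j => β j = some l ∧ X j = Y j ∧ X j ≠ 0 with hCm
  have hwX : ∀ l, wt β l X = ((df β X Y l).filter fun j => X j ≠ 0).card + (Cm l).card := by
    intro l
    unfold wt
    rw [← Finset.card_union_of_disjoint]
    · congr 1
      ext j
      simp only [Finset.mem_filter, Finset.mem_union, Finset.mem_univ, true_and, hdf, hCm]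
      tauto
    · rw [Finset.disjoint_left]
      intro j h4 h5
      simp only [Finset.mem_filter, Finset.mem_univ, true_and, hdf, hCm] at h4 h5
      exact h4.1.2 h5.2.1
  have hwY : ∀ l, wt β l Y = ((df β X Y l).card - ((df β X Y l).filter fun j => X j ≠ 0).card) +
      (Cm l).card := by
    intro l
    have h4 : (df β X Y l).card - ((df β X Y l).filter fun j => X j ≠ 0).card =
        ((df β X Y l).filter fun j => Y j ≠ 0).card := by
      have h5 := Finset.card_filter_add_card_filter_not (s := df β X Y l) (fun j => X j ≠ 0)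
      have h6 : (df β X Y l).filter (fun j => ¬ X j ≠ 0) =
          (df β X Y l).filter fun j => Y j ≠ 0 := by
        refine Finset.filter_congr fun j hj => ?_
        have h7 := ((hdf j l).1 hj).2
        rcases zcase (X j) with h8 | h8 <;> rcases zcase (Y j) with h9 | h9 <;> rw [h8, h9] at h7 ⊢ <;>
          simp at h7 ⊢
      rw [h6] at h5
      omega
    rw [h4]
    unfold wt
    rw [← Finset.card_union_of_disjoint]
    · congr 1
      ext j
      simp only [Finset.mem_filter, Finset.mem_union, Finset.mem_univ, true_and, hdf, hCm]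
      constructor
      · rintro ⟨h5, h6⟩
        by_cases h7 : X j = Y j
        · exact Or.inr ⟨h5, h7, by rw [h7]; exact h6⟩
        · exact Or.inl ⟨⟨h5, h7⟩, h6⟩
      · rintro (⟨⟨h5, h7⟩, h6⟩ | ⟨h5, h7, h6⟩)
        · exact ⟨h5, h6⟩
        · exact ⟨h5, by rw [← h7]; exact h6⟩
    · rw [Finset.disjoint_left]
      intro j h5 h6
      simp only [Finset.mem_filter, Finset.mem_univ, true_and, hdf, hCm] at h5 h6
      exact h5.1.2 h6.2.1
  refine ⟨P, P + T, ?_, ⟨?_, ?_⟩, ?_, ?_⟩
  · funext j
    show P j + (P j + T j) = T j
    have h4 : ∀ p t : ZMod 2, p + (p + t) = t := by decide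
    exact h4 _ _
  · intro j hj h4 h5
    rw [hPn j hj, h5, zero_mul] at h4
    exact h4 rfl
  · intro l
    rw [hwX l, ← hPc l]
    unfold wt
    rw [← Finset.card_union_of_disjoint]
    · congr 1
      ext j
      simp only [Finset.mem_filter, Finset.mem_union, Finset.mem_univ, true_and, hCm]
      constructor
      · rintro ⟨h4, h5⟩
        rw [hPs j l h4] at h5
        by_cases h6 : j ∈ df β X Y l
        · rw [if_pos h6] at h5
          left
          by_contra h7
          rw [if_neg h7] at h5
          exact h5 rfl
        · rw [if_neg h6] at h5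
          right
          rw [hdf] at h6
          refine ⟨h4, ?_, h5⟩
          by_contra h7
          exact h6 ⟨h4, h7⟩
      · rintro (h4 | ⟨h4, h5, h6⟩)
        · have h5 := (hdf j l).1 (hPl l h4)
          refine ⟨h5.1, ?_⟩
          rw [hPs j l h5.1, if_pos (hPl l h4), if_pos h4]
          decide
        · refine ⟨h4, ?_⟩
          rw [hPs j l h4, if_neg]
          · exact h6
          · rw [hdf]
            exact fun h7 => h7.2 h5
    · rw [Finset.disjoint_left]
      intro j h4 h5
      simp only [Finset.mem_filter, Finset.mem_univ, true_and, hCm] at h5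
      exact ((hdf j l).1 (hPl l h4)).2 h5.2.1
  · intro j hj h4 h5
    have h4' : P j + T j ≠ 0 := h4
    rw [hPn j hj] at h4'
    rcases zcase (X j) with h6 | h6
    · have h7 := hZ j (by rw [h6, h5])
      rw [h7] at h4'
      simp at h4'
    · rw [h6, one_mul] at h4'
      have h7 : ∀ t : ZMod 2, t + t = 0 := by decide
      exact h4' (h7 _)
  · intro l
    rw [hwY l, ← hQc l]
    unfold wt
    rw [← Finset.card_union_of_disjoint]
    · congr 1
      ext j
      simp only [Finset.mem_filter, Finset.mem_union, Finset.mem_univ, true_and, hCm,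
        Finset.mem_symmDiff]
      constructor
      · rintro ⟨h4, h5⟩
        have h5' : P j + T j ≠ 0 := h5
        rw [hPs j l h4] at h5'
        by_cases h6 : j ∈ df β X Y l
        · rw [if_pos h6] at h5'
          left
          by_cases h7 : j ∈ Pl l
          · left
            refine ⟨h7, fun h8 => ?_⟩
            rw [if_pos h7] at h5'
            rcases zcase (T j) with h9 | h9
            · exact h8.2 h9
            · rw [h9] at h5'
              exact h5' (by decide)
          · right
            rw [if_neg h7, zero_add] at h5'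
            exact ⟨⟨h6, h5'⟩, h7⟩
        · rw [if_neg h6] at h5'
          right
          rw [hdf] at h6
          have h7 : X j = Y j := by
            by_contra h7
            exact h6 ⟨h4, h7⟩
          rw [hZ j h7, add_zero] at h5'
          exact ⟨h4, h7, h5'⟩
      · rintro ((⟨h4, h5⟩ | ⟨⟨h4, h5⟩, h6⟩) | ⟨h4, h5, h6⟩)
        · have h6 := (hdf j l).1 (hPl l h4)
          refine ⟨h6.1, ?_⟩
          show P j + T j ≠ 0
          rw [hPs j l h6.1, if_pos (hPl l h4), if_pos h4]
          have h7 : T j = 0 := by
            by_contra h7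
            exact h5 ⟨hPl l h4, h7⟩
          rw [h7]
          decide
        · have h7 := (hdf j l).1 h4
          refine ⟨h7.1, ?_⟩
          show P j + T j ≠ 0
          rw [hPs j l h7.1, if_pos h4, if_neg h6, zero_add]
          exact h5
        · refine ⟨h4, ?_⟩
          show P j + T j ≠ 0
          rw [hPs j l h4, if_neg, hZ j h5, add_zero]
          · exact h6
          · rw [hdf]
            exact fun h7 => h7.2 h5
    · rw [Finset.disjoint_left]
      intro j h4 h5
      simp only [Finset.mem_filter, Finset.mem_univ, true_and, hCm] at h5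
      rw [Finset.mem_symmDiff] at h4
      rcases h4 with h4 | h4
      · exact ((hdf j l).1 (hPl l h4.1)).2 h5.2.1
      · exact ((hdf j l).1 (Finset.mem_filter.1 h4.1).1).2 h5.2.1

end Pool.Agent.MNS
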