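import Pool.Agent.MNS.Blk

/-!
# MNS (MP_73b4f2_co): coverings by block monotone sets
-/

set_option autoImplicit false

namespace Pool.Agent.MNS

variable {n q : ℕ}

theorem mem_df (β : Fin n → Option (Fin q)) (X Y : Fin n → ZMod 2) (j : Fin n) (l : Fin q) :
    j ∈ df β X Y l ↔ β j = some l ∧ X j ≠ Y j := by
  unfold df
  rw [Finset.mem_filter]
  simp

/-- the weights of `X` and `Y` in terms of the part in which they differ -/
theorem wt_split (β : Fin n → Option (Fin q)) (X Y : Fin n → ZMod 2) (l : Fin q) :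
    ∃ c : ℕ, wt β l X = ((df β X Y l).filter fun j => X j ≠ 0).card + c ∧
      wt β l Y + ((df β X Y l).filter fun j => X j ≠ 0).card = (df β X Y l).card + c := by
  classical
  refine ⟨(Finset.univ.filter fun j => β j = some l ∧ X j = Y j ∧ X j ≠ 0).card, ?_, ?_⟩
  · unfold wt
    rw [← Finset.card_union_of_disjoint]
    · congr 1
      ext j
      simp only [Finset.mem_filter, Finset.mem_union, Finset.mem_univ, true_and, mem_df]
      tauto
    · rw [Finset.disjoint_left]
      intro j h4 h5
      simp only [Finset.mem_filter, Finset.mem_univ, true_and, mem_df] at h4 h5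
      exact h4.1.2 h5.2.1
  · have h5 := Finset.card_filter_add_card_filter_not (s := df β X Y l) (fun j => X j ≠ 0)
    have h6 : (df β X Y l).filter (fun j => ¬ X j ≠ 0) =
        (df β X Y l).filter fun j => Y j ≠ 0 := by
      refine Finset.filter_congr fun j hj => ?_
      have h7 := ((mem_df β X Y j l).1 hj).2
      rcases zcase (X j) with h8 | h8 <;> rcases zcase (Y j) with h9 | h9 <;>
        rw [h8, h9] at h7 ⊢ <;> simp at h7 ⊢
    rw [h6] at h5
    have h7 : wt β l Y = ((df β X Y l).filter fun j => Y j ≠ 0).card +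
        (Finset.univ.filter fun j => β j = some l ∧ X j = Y j ∧ X j ≠ 0).card := by
      unfold wt
      rw [← Finset.card_union_of_disjoint]
      · congr 1
        ext j
        simp only [Finset.mem_filter, Finset.mem_union, Finset.mem_univ, true_and, mem_df]
        constructor
        · rintro ⟨h5, h6⟩
          by_cases h7 : X j = Y j
          · exact Or.inr ⟨h5, h7, by rw [h7]; exact h6⟩
          · exact Or.inl ⟨⟨h5, h7⟩, h6⟩
        · rintro (⟨⟨h5, h7⟩, h6⟩ | ⟨h5, h7, h6⟩)
          · exact ⟨h5, h6⟩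
          · exact ⟨h5, by rw [← h7]; exact h6⟩
      · rw [Finset.disjoint_left]
        intro j h5 h6
        simp only [Finset.mem_filter, Finset.mem_univ, true_and, mem_df] at h5 h6
        exact h5.1.2 h6.2.1
    omega

theorem wt_le (β : Fin n → Option (Fin q)) (x y : Fin n → ZMod 2) (l : Fin q) :
    wt β l x ≤ wt β l y + hammingDist x y := by
  classical
  unfold wt hammingDist
  refine (Finset.card_le_card ?_).trans (Finset.card_union_le _ _)
  intro j hj
  simp only [Finset.mem_filter, Finset.mem_union, Finset.mem_univ, true_and] at hj ⊢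
  by_cases h : x j = y j
  · exact Or.inl ⟨hj.1, by rw [← h]; exact hj.2⟩
  · exact Or.inr h

theorem wt_compl (β : Fin n → Option (Fin q)) (x : Fin n → ZMod 2) (l : Fin q) :
    wt β l (x + 1) + wt β l x = sz β l := by
  classical
  unfold wt sz
  rw [← Finset.card_union_of_disjoint]
  · congr 1
    ext j
    simp only [Finset.mem_filter, Finset.mem_union, Finset.mem_univ, true_and]
    have h1 : ∀ p : ZMod 2, p + 1 ≠ 0 ∨ p ≠ 0 := by decide
    have h2 : (x + 1) j ≠ 0 ∨ x j ≠ 0 := h1 (x j)
    tauto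
  · rw [Finset.disjoint_left]
    intro j h1 h2
    simp only [Finset.mem_filter, Finset.mem_univ, true_and] at h1 h2
    have h3 : ∀ p : ZMod 2, p + 1 ≠ 0 → p ≠ 0 → False := by decide
    exact h3 (x j) h1.2 h2.2

theorem dist_add (x y s : Fin n → ZMod 2) : hammingDist (x + s) (y + s) = hammingDist x y := by
  unfold hammingDist
  congr 1
  refine Finset.filter_congr fun j _ => ?_
  show x j + s j ≠ y j + s j ↔ x j ≠ y j
  rw [Ne, add_left_inj]

theorem dist_compl (x y : Fin n → ZMod 2) :
    hammingDist x (y + 1) = (Finset.univ.filter fun j => x j = y j).card := by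
  unfold hammingDist
  congr 1
  refine Finset.filter_congr fun j _ => ?_
  show x j ≠ y j + 1 ↔ x j = y j
  have h : ∀ p q : ZMod 2, p ≠ q + 1 ↔ p = q := by decide
  exact h _ _

/-- the sum of the coordinates in a set, modulo 2 -/
theorem sum_card (B : Finset (Fin n)) (T : Fin n → ZMod 2) :
    ∑ j ∈ B, T j = ((B.filter fun j => T j ≠ 0).card : ZMod 2) := by
  rw [Finset.card_filter, Nat.cast_sum]
  refine Finset.sum_congr rfl fun j _ => ?_
  rcases zcase (T j) with h | h <;> rw [h] <;> simp

/-- A subspace given by few equations. -/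
theorem exists_sub (E : Finset (Fin n)) (B : Fin q → Finset (Fin n)) :
    ∃ W : Submodule (ZMod 2) (Fin n → ZMod 2), n ≤ Module.finrank (ZMod 2) W + (E.card + q) ∧
      ∀ t ∈ W, (∀ j ∈ E, t j = 0) ∧ ∀ l, ∑ j ∈ B l, t j = 0 := by
  classical
  let Φ : (Fin n → ZMod 2) →ₗ[ZMod 2] ((E → ZMod 2) × (Fin q → ZMod 2)) :=
    { toFun := fun t => (fun j => t j.1, fun l => ∑ j ∈ B l, t j)
      map_add' := by
        intro s t
        refine Prod.ext (funext fun j => rfl) (funext fun l => ?_)
        exact Finset.sum_add_distrib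
      map_smul' := by
        intro c t
        refine Prod.ext (funext fun j => rfl) (funext fun l => ?_)
        exact (Finset.mul_sum _ _ _).symm }
  refine ⟨LinearMap.ker Φ, ?_, ?_⟩
  · have h1 := LinearMap.finrank_range_add_finrank_ker Φ
    rw [Module.finrank_fintype_fun_eq_card, Fintype.card_fin] at h1
    have h2 : Module.finrank (ZMod 2) (LinearMap.range Φ) ≤ E.card + q := by
      refine (Submodule.finrank_le _).trans (le_of_eq ?_)
      rw [Module.finrank_prod, Module.finrank_fintype_fun_eq_card,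
        Module.finrank_fintype_fun_eq_card, Fintype.card_fin, Fintype.card_coe]
    omega
  · intro t ht
    rw [LinearMap.mem_ker] at ht
    refine ⟨fun j hj => ?_, fun l => ?_⟩
    · exact congrFun (congrArg Prod.fst ht) ⟨j, hj⟩
    · exact congrFun (congrArg Prod.snd ht) l

open Classical in
/-- Coverings by block monotone sets, in coordinates. -/
theorem blockZ {κ : Type} [Fintype κ] [Nonempty κ] (σ : κ → (Fin n → ZMod 2))
    (β : κ → Fin n → Option (Fin q)) (D : κ → Set (Fin n → ZMod 2))
    (hD : ∀ k, ∀ X ∈ D k, ∀ P, Dom (β k) X P → P ∈ D k)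
    (hcov : ∀ u : Fin n → ZMod 2, ∃ k, u + σ k ∈ D k) (r : ℕ)
    (hr : (((q : ℝ) + 1) * Fintype.card κ - 1) *
      Real.log ((8 * q + 1) * (Fintype.card κ : ℝ) ^ 2) < ((r : ℝ) + 1) ^ 2) :
    ∃ (k : κ) (T0 : Fin n → ZMod 2) (W : Submodule (ZMod 2) (Fin n → ZMod 2)),
      n ≤ Module.finrank (ZMod 2) W + (r + 2 * q * (r + 1)) ∧
      ∀ t ∈ W, ∃ P ∈ D k, ∃ Q ∈ D k, P + Q = T0 + t := by
  set Mc : ℝ := (Fintype.card κ : ℝ) with hMc
  have hM1 : 1 ≤ Mc := by
    rw [hMc]
    exact_mod_cast Fintype.card_pos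
  have hq0 : (0 : ℝ) ≤ q := Nat.cast_nonneg q
  have hr1 : (0 : ℝ) < (r : ℝ) + 1 := by positivity
  set L : ℝ := Real.log ((8 * q + 1) * Mc ^ 2) with hL
  have harg : (0 : ℝ) < (8 * q + 1) * Mc ^ 2 := by positivity
  have hexpL : Real.exp (-L) = 1 / ((8 * q + 1) * Mc ^ 2) := by
    rw [Real.exp_neg, hL, Real.exp_log harg, one_div]
  obtain ⟨v, hv0, hv1, hv2⟩ : ∃ v : ℝ, 0 < v ∧ (q + 1) * Mc - 1 ≤ v ∧
      v * L < ((r : ℝ) + 1) ^ 2 := by
    by_cases hN : 0 < ((q : ℝ) + 1) * Mc - 1
    · exact ⟨_, hN, le_refl _, hr⟩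
    · have h1 : ((q : ℝ) + 1) * Mc ≤ 1 := by linarith
      have h2 : Mc = 1 := by nlinarith
      have h3 : (q : ℝ) = 0 := by
        rw [h2] at h1
        linarith
      refine ⟨1, one_pos, by rw [h2, h3]; norm_num, ?_⟩
      have h4 : L = 0 := by
        rw [hL, h2, h3]
        norm_num
      rw [h4, mul_zero]
      positivity
  set E : ℝ := Real.exp (-(((r : ℝ) + 1) ^ 2 / v)) with hE
  have hE0 : 0 < E := Real.exp_pos _
  have hE1 : E < 1 / ((8 * q + 1) * Mc ^ 2) := by
    rw [← hexpL, hE]
    refine Real.exp_lt_exp.2 (neg_lt_neg ?_)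
    rw [lt_div_iff₀ hv0]
    linarith
  have hMpos : 0 < Mc := by linarith
  have hE2 : E * ((8 * q + 1) * Mc ^ 2) < 1 := by
    rw [lt_div_iff₀ harg] at hE1
    exact hE1
  -- the functions
  let f : κ × Fin q → (Fin n → ZMod 2) → ℝ := fun i u =>
    (sz (β i.1) i.2 : ℝ) / 2 - wt (β i.1) i.2 (u + σ i.1)
  choose c hc using hcov
  have hcardι : (Fintype.card (κ × Fin q) : ℝ) = Mc * q := by
    rw [Fintype.card_prod, Fintype.card_fin]
    push_cast
    rw [hMc]
  -- the small quantity
  have hε1 : 4 * (Mc * q) * E < 1 / Mc := by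
    rw [lt_div_iff₀ hMpos]
    nlinarith [mul_pos hE0 (pow_pos hMpos 2), mul_nonneg (mul_nonneg hq0 hE0.le) (sq_nonneg Mc)]
  have hε2 : E < (1 / Mc - 4 * (Mc * q) * E) ^ 2 := by
    -- multiply by `Mc ^ 2`
    set e := E * Mc ^ 2 with he
    have he0 : 0 < e := by positivity
    have he1 : e * (8 * q + 1) < 1 := by
      rw [he]
      linarith
    have h4 : (1 / Mc - 4 * (Mc * q) * E) = (1 - 4 * q * e) / Mc := by
      rw [he]
      field_simp
    have h5 : E = e / Mc ^ 2 := by
      rw [he]
      field_simp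
    rw [h4, div_pow, h5]
    refine div_lt_div_of_pos_right ?_ (by positivity)
    have h6 : 0 < 1 - 4 * q * e := by nlinarith
    have h7 : e * (4 * q + 1) < 1 - 4 * q * e := by nlinarith
    have h8 : e * (8 * q + 1) ≤ e * (4 * q + 1) ^ 2 := by
      refine mul_le_mul_of_nonneg_left ?_ he0.le
      nlinarith
    -- `e < (1 - 4 q e)^2`
    have h9 : 1 - 4 * q * e ≥ (4 * q + 1) * e := by linarith
    by_contra hcon
    push Not at hcon
    -- `(1 - 4 q e)^2 ≤ e`
    have h10 : (1 - 4 * q * e) ^ 2 = 1 - 8 * q * e + 16 * q ^ 2 * e ^ 2 := by ring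
    rw [h10] at hcon
    have h11 : 1 ≤ (8 * q + 1) * e - 16 * q ^ 2 * e ^ 2 := by linarith
    have h12 : 0 ≤ 16 * (q : ℝ) ^ 2 * e ^ 2 := by positivity
    linarith
  obtain ⟨x, y, hxy, hd, hfx, hfy⟩ := masterZ n c f (by
      rintro ⟨k, l⟩ u
      show (sz (β k) l : ℝ) / 2 - wt (β k) l (u + 1 + σ k) =
        -((sz (β k) l : ℝ) / 2 - wt (β k) l (u + σ k))
      have h1 := wt_compl (β k) (u + σ k) l
      have h2 : u + σ k + 1 = u + 1 + σ k := by abel
      rw [h2] at h1
      have h3 : (wt (β k) l (u + 1 + σ k) : ℝ) + wt (β k) l (u + σ k) = sz (β k) l := by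
        exact_mod_cast h1
      linarith) (by
      rintro ⟨k, l⟩ u w
      show |((sz (β k) l : ℝ) / 2 - wt (β k) l (u + σ k)) -
        ((sz (β k) l : ℝ) / 2 - wt (β k) l (w + σ k))| ≤ hammingDist u w
      have h1 := wt_le (β k) (u + σ k) (w + σ k) l
      have h2 := wt_le (β k) (w + σ k) (u + σ k) l
      rw [dist_add] at h1 h2
      rw [hammingDist_comm w u] at h2
      have h3 : (wt (β k) l (u + σ k) : ℝ) ≤ wt (β k) l (w + σ k) + hammingDist u w := by
        exact_mod_cast h1
      have h4 : (wt (β k) l (w + σ k) : ℝ) ≤ wt (β k) l (u + σ k) + hammingDist u w := by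
        exact_mod_cast h2
      rw [abs_le]
      constructor <;> linarith) ((r : ℝ) + 1) ((r : ℝ) + 1) v (4 * (Mc * q) * E) hr1 hr1.le hv0
    (by
      rw [hcardι, ← hMc]
      linarith) (by rw [hcardι]) (by rw [← hMc]; exact hε1) (by rw [← hMc]; exact hε2)
  set k := c y with hk
  set X := x + σ k with hX
  set Y := y + σ k with hY
  have hXD : X ∈ D k := by
    have h1 := hc x
    rw [hxy] at h1
    exact h1
  have hYD : Y ∈ D k := hc y
  have hZ : (Finset.univ.filter fun j => X j = Y j).card ≤ r := by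
    have h1 : (Finset.univ.filter fun j => X j = Y j) = Finset.univ.filter fun j => x j = y j := by
      refine Finset.filter_congr fun j _ => ?_
      show x j + σ k j = y j + σ k j ↔ x j = y j
      rw [add_left_inj]
    rw [h1, ← dist_compl]
    have h2 : (hammingDist x (y + 1) : ℝ) < ((r + 1 : ℕ) : ℝ) := by
      push_cast
      exact hd
    have h3 : hammingDist x (y + 1) < r + 1 := by exact_mod_cast h2
    omega
  -- the blocks
  set a : Fin q → ℕ := fun l => ((df (β k) X Y l).filter fun j => X j ≠ 0).card with ha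
  set d : Fin q → ℕ := fun l => (df (β k) X Y l).card with hdd
  have had : ∀ l, a l ≤ d l := fun l => Finset.card_le_card (Finset.filter_subset _ _)
  have hbal : ∀ l, 2 * a l ≤ d l + (2 * r + 1) ∧ d l ≤ 2 * a l + (2 * r + 1) := by
    intro l
    obtain ⟨cc, h1, h2⟩ := wt_split (β k) X Y l
    have h3 := hfx (k, l)
    have h4 := hfy (k, l)
    have h3' : |(sz (β k) l : ℝ) / 2 - wt (β k) l X| < r + 1 := h3
    have h4' : |(sz (β k) l : ℝ) / 2 - wt (β k) l Y| < r + 1 := h4
    rw [abs_lt] at h3' h4'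
    have h5 : (wt (β k) l X : ℝ) < wt (β k) l Y + (2 * r + 2 : ℕ) := by
      push_cast
      linarith
    have h6 : (wt (β k) l Y : ℝ) < wt (β k) l X + (2 * r + 2 : ℕ) := by
      push_cast
      linarith
    have h7 : wt (β k) l X < wt (β k) l Y + (2 * r + 2) := by exact_mod_cast h5
    have h8 : wt (β k) l Y < wt (β k) l X + (2 * r + 2) := by exact_mod_cast h6
    have h9 := had l
    simp only [ha, hdd] at h9 ⊢
    omega
  -- the coordinates which are fixed
  have hJ : ∀ l, ∃ J ⊆ df (β k) X Y l, J.card = (2 * a l - d l) + (d l - 2 * a l) := by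
    intro l
    refine Finset.exists_subset_card_eq ?_
    have h1 := had l
    show _ ≤ d l
    omega
  choose J hJ1 hJ2 using hJ
  set Z := Finset.univ.filter fun j => X j = Y j with hZdef
  obtain ⟨W, hW1, hW2⟩ := exists_sub (Z ∪ Finset.univ.biUnion J) (fun l => df (β k) X Y l)
  refine ⟨k, X + Y, W, ?_, ?_⟩
  · have h1 : (Z ∪ Finset.univ.biUnion J).card ≤ r + q * (2 * r + 1) := by
      refine (Finset.card_union_le _ _).trans (add_le_add hZ ?_)
      refine Finset.card_biUnion_le.trans ?_
      have h2 : ∀ l ∈ (Finset.univ : Finset (Fin q)), (J l).card ≤ 2 * r + 1 := by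
        intro l _
        rw [hJ2]
        have h3 := hbal l
        have h4 := had l
        omega
      have h3 := Finset.sum_le_card_nsmul Finset.univ (fun l => (J l).card) (2 * r + 1) h2
      rw [Finset.card_univ, Fintype.card_fin, smul_eq_mul] at h3
      exact h3
    have h2 : 2 * q * (r + 1) = q * (2 * r + 1) + q := by ring
    omega
  · intro t ht
    obtain ⟨ht1, ht2⟩ := hW2 t ht
    set T := X + Y + t with hT
    have hTj : ∀ j, T j = X j + Y j + t j := fun j => rfl
    have hTZ : ∀ j, X j = Y j → T j = 0 := by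
      intro j hj
      rw [hTj, ht1 j (Finset.mem_union_left _ (by rw [hZdef, Finset.mem_filter]; simp [hj])), hj]
      have : ∀ p : ZMod 2, p + p + 0 = 0 := by decide
      exact this _
    have hTJ : ∀ l, ∀ j ∈ J l, j ∈ (df (β k) X Y l).filter fun j => T j ≠ 0 := by
      intro l j hj
      rw [Finset.mem_filter]
      refine ⟨hJ1 l hj, ?_⟩
      rw [hTj, ht1 j (Finset.mem_union_right _ (Finset.mem_biUnion.2 ⟨l, Finset.mem_univ _, hj⟩))]
      have h1 := ((mem_df _ _ _ _ _).1 (hJ1 l hj)).2
      have : ∀ p s : ZMod 2, p ≠ s → p + s + 0 ≠ 0 := by decide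
      exact this _ _ h1
    have hTc : ∀ l, (2 * a l - d l) + (d l - 2 * a l) ≤
        ((df (β k) X Y l).filter fun j => T j ≠ 0).card := by
      intro l
      rw [← hJ2]
      exact Finset.card_le_card (hTJ l)
    obtain ⟨P, Q, h1, h2, h3⟩ := decomp (β k) X Y T hTZ (by
        intro l
        have h4 := sum_card (df (β k) X Y l) T
        have h5 : ∑ j ∈ df (β k) X Y l, T j = (d l : ZMod 2) := by
          have h6 : ∑ j ∈ df (β k) X Y l, T j =
              ∑ j ∈ df (β k) X Y l, ((1 : ZMod 2) + t j) := by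
            refine Finset.sum_congr rfl fun j hj => ?_
            have h7 := ((mem_df _ _ _ _ _).1 hj).2
            rw [hTj]
            have : ∀ p s : ZMod 2, p ≠ s → p + s = 1 := by decide
            rw [this _ _ h7]
          rw [h6, Finset.sum_add_distrib, ht2 l, add_zero, Finset.sum_const, nsmul_eq_mul, mul_one]
        rw [h5] at h4
        have h8 := (ZMod.natCast_eq_natCast_iff' _ _ _).1 h4
        exact h8.symm) (by
        intro l
        have h4 := hTc l
        show 2 * a l ≤ d l + _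
        omega) (by
        intro l
        have h4 := hTc l
        show d l ≤ 2 * a l + _
        omega)
    exact ⟨P, hD k X hXD P h2, Q, hD k Y hYD Q h3, h1⟩

end Pool.Agent.MNS
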