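import Mathlib

/-!
# MNS (MP_73b4f2_co): product measures on the cube, two-set inequality
-/

set_option autoImplicit false

namespace Pool.Agent.MNS

/-- expectation with respect to the product measure with the probabilities `p` of `true` -/
noncomputable def Ex : List ℝ → (List Bool → ℝ) → ℝ
  | [], f => f []
  | p :: ps, f => p * Ex ps (fun x => f (true :: x)) + (1 - p) * Ex ps (fun x => f (false :: x))

/-- probabilities -/
def Pr (p : List ℝ) : Prop := ∀ a ∈ p, 0 ≤ a ∧ a ≤ 1

/-- `ℓ¹` distance -/
noncomputable def d1 : List ℝ → List ℝ → ℝ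
  | a :: p, b :: q => |a - b| + d1 p q
  | _, _ => 0

/-- Hamming distance -/
def hd : List Bool → List Bool → ℕ
  | a :: x, b :: y => (if a = b then 0 else 1) + hd x y
  | _, _ => 0

open Classical in
/-- number of coordinates that are not deterministic -/
noncomputable def fr : List ℝ → ℕ
  | [] => 0
  | a :: p => (if a = 0 ∨ a = 1 then 0 else 1) + fr p

/-- complement of a vector -/
def cp (x : List Bool) : List Bool := x.map (fun b => !b)

theorem cp_cp (x : List Bool) : cp (cp x) = x := by
  unfold cp
  rw [List.map_map]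
  have : ((fun b => !b) ∘ fun b => !b) = (id : Bool → Bool) := by
    funext b
    simp
  rw [this, List.map_id]

theorem cp_length (x : List Bool) : (cp x).length = x.length := by
  unfold cp
  rw [List.length_map]

theorem Pr_cons {a : ℝ} {p : List ℝ} : Pr (a :: p) ↔ (0 ≤ a ∧ a ≤ 1) ∧ Pr p := by
  unfold Pr
  rw [List.forall_mem_cons]

theorem d1_nonneg (p : List ℝ) : ∀ q, 0 ≤ d1 p q := by
  induction p with
  | nil => intro q; simp [d1]
  | cons a p ih =>
    intro q
    cases q with
    | nil => simp [d1]
    | cons b q =>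
      simp only [d1]
      have := ih q
      positivity

theorem Ex_mono (p : List ℝ) : ∀ f g : List Bool → ℝ, Pr p →
    (∀ x, x.length = p.length → f x ≤ g x) → Ex p f ≤ Ex p g := by
  induction p with
  | nil => intro f g _ h; exact h [] rfl
  | cons a p ih =>
    intro f g hp h
    rw [Pr_cons] at hp
    simp only [Ex]
    have h1 := ih (fun x => f (true :: x)) (fun x => g (true :: x)) hp.2
      fun x hx => h _ (by simp [hx])
    have h2 := ih (fun x => f (false :: x)) (fun x => g (false :: x)) hp.2
      fun x hx => h _ (by simp [hx])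
    have h3 := mul_le_mul_of_nonneg_left h1 hp.1.1
    have h4 := mul_le_mul_of_nonneg_left h2 (show 0 ≤ 1 - a by linarith [hp.1.2])
    linarith

theorem Ex_congr (p : List ℝ) : ∀ f g : List Bool → ℝ,
    (∀ x, x.length = p.length → f x = g x) → Ex p f = Ex p g := by
  induction p with
  | nil => intro f g h; exact h [] rfl
  | cons a p ih =>
    intro f g h
    simp only [Ex]
    rw [ih (fun x => f (true :: x)) (fun x => g (true :: x)) fun x hx => h _ (by simp [hx]),
      ih (fun x => f (false :: x)) (fun x => g (false :: x)) fun x hx => h _ (by simp [hx])]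

theorem Ex_const (p : List ℝ) (c : ℝ) : Ex p (fun _ => c) = c := by
  induction p with
  | nil => rfl
  | cons a p ih =>
    simp only [Ex]
    rw [ih]
    ring

theorem Ex_add (p : List ℝ) : ∀ f g : List Bool → ℝ,
    Ex p (fun x => f x + g x) = Ex p f + Ex p g := by
  induction p with
  | nil => intro f g; rfl
  | cons a p ih =>
    intro f g
    simp only [Ex]
    rw [ih, ih]
    ring

theorem Ex_mul (p : List ℝ) (c : ℝ) : ∀ f : List Bool → ℝ,
    Ex p (fun x => c * f x) = c * Ex p f := by
  induction p with
  | nil => intro f; rfl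
  | cons a p ih =>
    intro f
    simp only [Ex]
    rw [ih, ih]
    ring

theorem Ex_neg (p : List ℝ) (f : List Bool → ℝ) : Ex p (fun x => -f x) = -Ex p f := by
  have h := Ex_mul p (-1) f
  simp only [neg_mul, one_mul] at h
  exact h

theorem Ex_sub (p : List ℝ) (f g : List Bool → ℝ) :
    Ex p (fun x => f x - g x) = Ex p f - Ex p g := by
  have h := Ex_add p f (fun x => -g x)
  rw [Ex_neg] at h
  simp only [sub_eq_add_neg]
  exact h

theorem Ex_sum {ι : Type} (s : Finset ι) (p : List ℝ) (f : ι → List Bool → ℝ) :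
    Ex p (fun x => ∑ i ∈ s, f i x) = ∑ i ∈ s, Ex p (f i) := by
  classical
  induction s using Finset.induction_on with
  | empty => simp only [Finset.sum_empty, Ex_const]
  | insert a s ha ih =>
    simp only [Finset.sum_insert ha]
    rw [Ex_add, ih]

theorem Ex_abs_le (p : List ℝ) (f : List Bool → ℝ) (hp : Pr p) (hf : ∀ x, |f x| ≤ 1) :
    |Ex p f| ≤ 1 := by
  rw [abs_le]
  constructor
  · have h := Ex_mono p (fun _ => -1) f hp fun x _ => (abs_le.1 (hf x)).1
    rwa [Ex_const] at h
  · have h := Ex_mono p f (fun _ => 1) hp fun x _ => (abs_le.1 (hf x)).2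
    rwa [Ex_const] at h

theorem Ex_nonneg (p : List ℝ) (f : List Bool → ℝ) (hp : Pr p) (hf : ∀ x, 0 ≤ f x) :
    0 ≤ Ex p f := by
  have h := Ex_mono p (fun _ => 0) f hp fun x _ => hf x
  rwa [Ex_const] at h

theorem Ex_cp (p : List ℝ) : ∀ f : List Bool → ℝ,
    Ex (p.map (fun a => 1 - a)) f = Ex p (fun x => f (cp x)) := by
  induction p with
  | nil => intro f; rfl
  | cons a p ih =>
    intro f
    simp only [List.map_cons, Ex]
    rw [ih, ih]
    have h1 : ∀ x, cp (true :: x) = false :: cp x := fun _ => rfl
    have h2 : ∀ x, cp (false :: x) = true :: cp x := fun _ => rfl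
    simp only [h1, h2]
    ring

theorem Ex_lip (p : List ℝ) : ∀ (q : List ℝ) (f : List Bool → ℝ), p.length = q.length → Pr p →
    Pr q → (∀ x, |f x| ≤ 1) → |Ex p f - Ex q f| ≤ 2 * d1 p q := by
  induction p with
  | nil =>
    intro q f hl _ _ _
    cases q with
    | nil => simp [d1]
    | cons b q => simp at hl
  | cons a p ih =>
    intro q f hl hp hq hf
    cases q with
    | nil => simp at hl
    | cons b q =>
      rw [Pr_cons] at hp hq
      simp only [Ex, d1]
      have hl' : p.length = q.length := by simpa using hl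
      have h1 := ih q (fun x => f (true :: x)) hl' hp.2 hq.2 fun x => hf _
      have h2 := ih q (fun x => f (false :: x)) hl' hp.2 hq.2 fun x => hf _
      have h3 := Ex_abs_le q (fun x => f (true :: x)) hq.2 fun x => hf _
      have h4 := Ex_abs_le q (fun x => f (false :: x)) hq.2 fun x => hf _
      generalize Ex p (fun x => f (true :: x)) = x1 at *
      generalize Ex p (fun x => f (false :: x)) = x2 at *
      generalize Ex q (fun x => f (true :: x)) = y1 at *
      generalize Ex q (fun x => f (false :: x)) = y2 at *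
      have e : a * x1 + (1 - a) * x2 - (b * y1 + (1 - b) * y2) =
          a * (x1 - y1) + (1 - a) * (x2 - y2) + (a - b) * (y1 - y2) := by ring
      rw [e]
      have h5 : |a * (x1 - y1)| ≤ a * (2 * d1 p q) := by
        rw [abs_mul, abs_of_nonneg hp.1.1]
        exact mul_le_mul_of_nonneg_left h1 hp.1.1
      have h6 : |(1 - a) * (x2 - y2)| ≤ (1 - a) * (2 * d1 p q) := by
        rw [abs_mul, abs_of_nonneg (show 0 ≤ 1 - a by linarith [hp.1.2])]
        exact mul_le_mul_of_nonneg_left h2 (by linarith [hp.1.2])
      have h7 : |(a - b) * (y1 - y2)| ≤ |a - b| * 2 := by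
        rw [abs_mul]
        refine mul_le_mul_of_nonneg_left ?_ (abs_nonneg _)
        have := abs_sub y1 y2
        linarith
      have h8 := abs_add_three (a * (x1 - y1)) ((1 - a) * (x2 - y2)) ((a - b) * (y1 - y2))
      linarith

/-- the one-dimensional inequality -/
theorem one_step (p u1 u0 w1 w0 C l : ℝ) (hp0 : 0 ≤ p) (hp1 : p ≤ 1) (hu1 : 0 ≤ u1)
    (hu0 : 0 ≤ u0) (hw1 : 0 ≤ w1) (hw0 : 0 ≤ w0) (hC : 0 ≤ C) (h11 : u1 * w1 ≤ C)
    (h00 : u0 * w0 ≤ C) (h10 : u1 * w0 ≤ C * Real.exp l) (h01 : u0 * w1 ≤ C * Real.exp l) :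
    (p * u1 + (1 - p) * u0) * (p * w1 + (1 - p) * w0) ≤
      C * (1 + 2 * p * (1 - p) * (Real.cosh l - 1)) := by
  have hab : u1 * w0 + u0 * w1 ≤ 2 * C * Real.cosh l := by
    rcases hC.eq_or_lt with h | h
    · rw [← h] at h10 h01 ⊢
      linarith
    · set a := u1 * w0 with ha
      set b := u0 * w1 with hb
      have hprod : a * b ≤ C ^ 2 := by
        have : a * b = (u1 * w1) * (u0 * w0) := by rw [ha, hb]; ring
        rw [this, sq]
        exact mul_le_mul h11 h00 (mul_nonneg hu0 hw0) hC
      have he : 0 < Real.exp l := Real.exp_pos l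
      have hK : 0 < C * Real.exp l := mul_pos h he
      have h1 : 0 ≤ (C * Real.exp l - a) * (C * Real.exp l - b) :=
        mul_nonneg (by linarith) (by linarith)
      have h2 : (C * Real.exp l) * (a + b) ≤ (C * Real.exp l) ^ 2 + C ^ 2 := by nlinarith
      have h3 : (C * Real.exp l) * (2 * C * Real.cosh l) = (C * Real.exp l) ^ 2 + C ^ 2 := by
        rw [Real.cosh_eq]
        have : Real.exp l * Real.exp (-l) = 1 := by rw [← Real.exp_add]; simp
        have e : C * Real.exp l * (2 * C * ((Real.exp l + Real.exp (-l)) / 2)) =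
            C ^ 2 * (Real.exp l ^ 2 + Real.exp l * Real.exp (-l)) := by ring
        rw [e, this]
        ring
      rw [← h3] at h2
      exact le_of_mul_le_mul_left h2 hK
  have e : (p * u1 + (1 - p) * u0) * (p * w1 + (1 - p) * w0) =
      p ^ 2 * (u1 * w1) + (1 - p) ^ 2 * (u0 * w0) + p * (1 - p) * (u1 * w0 + u0 * w1) := by ring
  rw [e]
  have hq : 0 ≤ p * (1 - p) := mul_nonneg hp0 (by linarith)
  have h1 := mul_le_mul_of_nonneg_left h11 (sq_nonneg p)
  have h2 := mul_le_mul_of_nonneg_left h00 (sq_nonneg (1 - p))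
  have h3 := mul_le_mul_of_nonneg_left hab hq
  have e2 : C * (1 + 2 * p * (1 - p) * (Real.cosh l - 1)) =
      p ^ 2 * C + (1 - p) ^ 2 * C + p * (1 - p) * (2 * C * Real.cosh l) := by ring
  rw [e2]
  linarith

theorem cosh_bound (l : ℝ) : (1 + Real.cosh l) / 2 ≤ Real.exp (l ^ 2 / 4) := by
  have h1 : Real.cosh l = 2 * Real.cosh (l / 2) ^ 2 - 1 := by
    have h2 := Real.cosh_two_mul (l / 2)
    rw [show 2 * (l / 2) = l by ring] at h2
    rw [h2, Real.sinh_sq]
    ring
  have h3 := Real.cosh_le_exp_half_sq (l / 2)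
  have h4 : (1 + Real.cosh l) / 2 = Real.cosh (l / 2) ^ 2 := by rw [h1]; ring
  rw [h4]
  calc Real.cosh (l / 2) ^ 2 ≤ (Real.exp ((l / 2) ^ 2 / 2)) ^ 2 :=
        pow_le_pow_left₀ (Real.cosh_pos _).le h3 2
    _ = Real.exp (l ^ 2 / 4) := by
        rw [← Real.exp_nat_mul]
        congr 1
        push_cast
        ring

/-- two-function inequality -/
theorem two_fun (l : ℝ) (p : List ℝ) : ∀ (f g : List Bool → ℝ) (C : ℝ), Pr p → 0 ≤ C →
    (∀ x, 0 ≤ f x) → (∀ x, 0 ≤ g x) →
    (∀ x y, x.length = p.length → y.length = p.length → f x * g y ≤ C * Real.exp (l * hd x y)) →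
    Ex p f * Ex p g ≤ C * Real.exp (fr p * (l ^ 2 / 4)) := by
  induction p with
  | nil =>
    intro f g C _ hC _ _ h
    have := h [] [] rfl rfl
    simpa [Ex, hd, fr] using this
  | cons a p ih =>
    intro f g C hp hC hf hg h
    rw [Pr_cons] at hp
    set C' := C * Real.exp (fr p * (l ^ 2 / 4)) with hC'
    have hC'0 : 0 ≤ C' := by positivity
    have e1 : ∀ (b c : Bool) (x y : List Bool), hd (b :: x) (c :: y) =
      (if b = c then 0 else 1) + hd x y := fun _ _ _ _ => rfl
    have h11 : Ex p (fun x => f (true :: x)) * Ex p (fun x => g (true :: x)) ≤ C' := by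
      refine ih _ _ C hp.2 hC (fun x => hf _) (fun x => hg _) fun x y hx hy => ?_
      have := h (true :: x) (true :: y) (by simp [hx]) (by simp [hy])
      rw [e1, if_pos rfl, zero_add] at this
      exact this
    have h00 : Ex p (fun x => f (false :: x)) * Ex p (fun x => g (false :: x)) ≤ C' := by
      refine ih _ _ C hp.2 hC (fun x => hf _) (fun x => hg _) fun x y hx hy => ?_
      have := h (false :: x) (false :: y) (by simp [hx]) (by simp [hy])
      rw [e1, if_pos rfl, zero_add] at this
      exact this
    have h10 : Ex p (fun x => f (true :: x)) * Ex p (fun x => g (false :: x)) ≤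
        C' * Real.exp l := by
      have h1 := ih (fun x => f (true :: x)) (fun x => g (false :: x)) (C * Real.exp l) hp.2
        (by positivity) (fun x => hf _) (fun x => hg _) fun x y hx hy => by
          have := h (true :: x) (false :: y) (by simp [hx]) (by simp [hy])
          rw [e1, if_neg (by decide)] at this
          refine this.trans (le_of_eq ?_)
          push_cast
          rw [mul_assoc, ← Real.exp_add]
          congr 2
          ring
      refine h1.trans (le_of_eq ?_)
      rw [hC']
      ring
    have h01 : Ex p (fun x => f (false :: x)) * Ex p (fun x => g (true :: x)) ≤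
        C' * Real.exp l := by
      have h1 := ih (fun x => f (false :: x)) (fun x => g (true :: x)) (C * Real.exp l) hp.2
        (by positivity) (fun x => hf _) (fun x => hg _) fun x y hx hy => by
          have := h (false :: x) (true :: y) (by simp [hx]) (by simp [hy])
          rw [e1, if_neg (by decide)] at this
          refine this.trans (le_of_eq ?_)
          push_cast
          rw [mul_assoc, ← Real.exp_add]
          congr 2
          ring
      refine h1.trans (le_of_eq ?_)
      rw [hC']
      ring
    have key := one_step a _ _ _ _ C' l hp.1.1 hp.1.2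
      (Ex_nonneg p _ hp.2 fun x => hf (true :: x)) (Ex_nonneg p _ hp.2 fun x => hf (false :: x))
      (Ex_nonneg p _ hp.2 fun x => hg (true :: x)) (Ex_nonneg p _ hp.2 fun x => hg (false :: x))
      hC'0 h11 h00 h10 h01
    refine (show Ex (a :: p) f * Ex (a :: p) g ≤ _ from key).trans ?_
    by_cases ha : a = 0 ∨ a = 1
    · have h2 : 2 * a * (1 - a) = 0 := by
        rcases ha with h | h <;> rw [h] <;> ring
      rw [h2, zero_mul, add_zero, mul_one]
      simp only [fr]
      rw [if_pos ha, zero_add]
    · simp only [fr]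
      rw [if_neg ha]
      have h2 : 1 + 2 * a * (1 - a) * (Real.cosh l - 1) ≤ (1 + Real.cosh l) / 2 := by
        have h3 : 0 ≤ Real.cosh l - 1 := by linarith [Real.one_le_cosh l]
        have h4 : 2 * a * (1 - a) ≤ 1 / 2 := by nlinarith [sq_nonneg (2 * a - 1)]
        nlinarith
      have h5 := h2.trans (cosh_bound l)
      calc C' * (1 + 2 * a * (1 - a) * (Real.cosh l - 1)) ≤ C' * Real.exp (l ^ 2 / 4) :=
            mul_le_mul_of_nonneg_left h5 hC'0
        _ = C * Real.exp (((1 + fr p : ℕ) : ℝ) * (l ^ 2 / 4)) := by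
            rw [hC', mul_assoc, ← Real.exp_add]
            congr 2
            push_cast
            ring

open Classical in
/-- indicator -/
noncomputable def ind (P : List Bool → Prop) (x : List Bool) : ℝ := if P x then 1 else 0

theorem ind_nonneg (P : List Bool → Prop) (x : List Bool) : 0 ≤ ind P x := by
  unfold ind
  split_ifs <;> norm_num

theorem ind_le (P : List Bool → Prop) (x : List Bool) : ind P x ≤ 1 := by
  unfold ind
  split_ifs <;> norm_num

theorem ind_pos {P : List Bool → Prop} {x : List Bool} (h : P x) : ind P x = 1 := by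
  unfold ind
  rw [if_pos h]

theorem ind_neg {P : List Bool → Prop} {x : List Bool} (h : ¬ P x) : ind P x = 0 := by
  unfold ind
  rw [if_neg h]

/-- two-set inequality -/
theorem two_set (p : List ℝ) (hp : Pr p) (P Q : List Bool → Prop) (r : ℝ) (hr : 0 ≤ r)
    (h : ∀ x y, x.length = p.length → y.length = p.length → P x → Q y → r ≤ hd x y)
    (v : ℝ) (hv : 0 < v) (hfr : (fr p : ℝ) ≤ v) :
    Ex p (ind P) * Ex p (ind Q) ≤ Real.exp (-(r ^ 2 / v)) := by
  set l : ℝ := 2 * r / v with hl
  have hl0 : 0 ≤ l := by positivity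
  have h1 := two_fun l p (ind P) (fun y => Real.exp (l * r) * ind Q y) 1 hp zero_le_one
    (ind_nonneg P) (fun y => mul_nonneg (Real.exp_pos _).le (ind_nonneg Q y)) (by
      intro x y hx hy
      rw [one_mul]
      by_cases hPx : P x
      · by_cases hQy : Q y
        · rw [ind_pos hPx, ind_pos hQy, one_mul, mul_one]
          exact Real.exp_le_exp.2 (mul_le_mul_of_nonneg_left (h x y hx hy hPx hQy) hl0)
        · rw [ind_neg hQy, mul_zero, mul_zero]
          exact (Real.exp_pos _).le
      · rw [ind_neg hPx, zero_mul]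
        exact (Real.exp_pos _).le)
  rw [Ex_mul, one_mul] at h1
  have h2 : Real.exp (fr p * (l ^ 2 / 4)) ≤ Real.exp (v * (l ^ 2 / 4)) :=
    Real.exp_le_exp.2 (mul_le_mul_of_nonneg_right hfr (by positivity))
  have h3 : Real.exp (-(r ^ 2 / v)) = Real.exp (v * (l ^ 2 / 4)) * Real.exp (-(l * r)) := by
    rw [← Real.exp_add, hl]
    congr 1
    field_simp
    ring
  rw [h3]
  have h4 : Ex p (ind P) * Ex p (ind Q) =
      (Ex p (ind P) * (Real.exp (l * r) * Ex p (ind Q))) * Real.exp (-(l * r)) := by
    have : Real.exp (l * r) * Real.exp (-(l * r)) = 1 := by rw [← Real.exp_add]; simp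
    calc Ex p (ind P) * Ex p (ind Q) =
        Ex p (ind P) * Ex p (ind Q) * (Real.exp (l * r) * Real.exp (-(l * r))) := by
          rw [this, mul_one]
      _ = _ := by ring
  rw [h4]
  exact mul_le_mul_of_nonneg_right (h1.trans h2) (Real.exp_pos _).le

/-- a point outside of a set of measure less than one -/
theorem exists_not (p : List ℝ) (hp : Pr p) (P : List Bool → Prop) (h : Ex p (ind P) < 1) :
    ∃ x, x.length = p.length ∧ ¬ P x := by
  by_contra hc
  push Not at hc
  have h1 : Ex p (ind P) = Ex p (fun _ => 1) :=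
    Ex_congr p _ _ fun x hx => ind_pos (hc x hx)
  rw [h1, Ex_const] at h
  exact lt_irrefl _ h

end Pool.Agent.MNS
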