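import Pool.Agent.MNS.Mast

/-!
# MNS (MP_73b4f2_co): nearly antipodal pairs, version for vectors over the field with two elements
-/

set_option autoImplicit false

namespace Pool.Agent.MNS

/-- the vector of a list -/
def fn (n : ℕ) (x : List Bool) : Fin n → ZMod 2 := fun j => if x.getD j false then 1 else 0

theorem fn_zero (n : ℕ) (a : Bool) (x : List Bool) :
    fn (n + 1) (a :: x) 0 = if a then 1 else 0 := rfl

theorem fn_succ (n : ℕ) (a : Bool) (x : List Bool) (j : Fin n) :
    fn (n + 1) (a :: x) j.succ = fn n x j := rfl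

theorem fn_cp : ∀ (n : ℕ) (x : List Bool), x.length = n → fn n (cp x) = fn n x + 1 := by
  intro n
  induction n with
  | zero =>
    intro x _
    funext j
    exact j.elim0
  | succ n ih =>
    intro x hx
    cases x with
    | nil => simp at hx
    | cons a x =>
      have h1 : cp (a :: x) = (!a) :: cp x := rfl
      rw [h1]
      funext j
      refine Fin.cases ?_ (fun j => ?_) j
      · rw [fn_zero]
        show _ = fn (n + 1) (a :: x) 0 + 1
        rw [fn_zero]
        cases a
        · simp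
        · simp only [Bool.not_true, Bool.false_eq_true, if_false, if_true]
          decide
      · rw [fn_succ]
        show _ = fn (n + 1) (a :: x) j.succ + 1
        rw [fn_succ, ih x (by simpa using hx)]
        rfl

theorem dist_sum {n : ℕ} (u w : Fin n → ZMod 2) :
    hammingDist u w = ∑ j, if u j ≠ w j then 1 else 0 := by
  unfold hammingDist
  rw [Finset.card_filter]

theorem hd_fn : ∀ (n : ℕ) (x y : List Bool), x.length = n → y.length = n →
    hd x y = hammingDist (fn n x) (fn n y) := by
  intro n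
  induction n with
  | zero =>
    intro x y hx hy
    rw [List.length_eq_zero_iff] at hx hy
    rw [hx, hy, hammingDist_self]
    rfl
  | succ n ih =>
    intro x y hx hy
    cases x with
    | nil => simp at hx
    | cons a x =>
      cases y with
      | nil => simp at hy
      | cons b y =>
        rw [dist_sum, Fin.sum_univ_succ]
        simp only [fn_succ, fn_zero, hd]
        rw [ih x y (by simpa using hx) (by simpa using hy), dist_sum]
        congr 1
        cases a <;> cases b <;> simp

/-- Balanced nearly antipodal pairs with the same colour. -/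
theorem masterZ (n : ℕ) {κ ι : Type} [Fintype κ] [Fintype ι] [Nonempty κ]
    (c : (Fin n → ZMod 2) → κ) (f : ι → (Fin n → ZMod 2) → ℝ)
    (hodd : ∀ i x, f i (x + 1) = -f i x)
    (hlip : ∀ i x y, |f i x - f i y| ≤ hammingDist x y)
    (t r v ε : ℝ) (ht : 0 < t) (hr : 0 ≤ r) (hv : 0 < v)
    (hN : (Fintype.card κ : ℝ) - 1 + Fintype.card ι ≤ v)
    (h1 : 4 * (Fintype.card ι : ℝ) * Real.exp (-(t ^ 2 / v)) ≤ ε)
    (h2 : ε < 1 / Fintype.card κ)
    (h3 : Real.exp (-(r ^ 2 / v)) < (1 / (Fintype.card κ : ℝ) - ε) ^ 2) :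
    ∃ x y : Fin n → ZMod 2, c x = c y ∧ (hammingDist x (y + 1) : ℝ) < r ∧
      (∀ i, |f i x| < t) ∧ ∀ i, |f i y| < t := by
  obtain ⟨x, y, hx, hy, h4, h5, h6, h7⟩ := master n (fun x => c (fn n x))
    (fun i x => f i (fn n x)) (by
      intro i x hx
      rw [fn_cp n x hx, hodd]) (by
      intro i x y hx hy
      rw [hd_fn n x y hx hy]
      exact hlip i _ _) t r v ε ht hr hv hN h1 h2 h3
  refine ⟨fn n x, fn n y, h4, ?_, h6, h7⟩
  rw [hd_fn n x (cp y) hx (by rw [cp_length]; exact hy), fn_cp n y hy] at h5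
  exact h5

/-- Nearly antipodal pairs with the same colour. -/
theorem colour (n : ℕ) {κ : Type} [Fintype κ] [Nonempty κ] (c : (Fin n → ZMod 2) → κ) (r : ℕ)
    (hr : 2 * ((Fintype.card κ : ℝ) - 1) * Real.log (Fintype.card κ) < ((r : ℝ) + 1) ^ 2) :
    ∃ x y : Fin n → ZMod 2, c x = c y ∧ hammingDist x (y + 1) ≤ r := by
  set Mc : ℝ := (Fintype.card κ : ℝ) with hMc
  have hM1 : 1 ≤ Mc := by
    rw [hMc]
    exact_mod_cast Fintype.card_pos
  have hr1 : (0 : ℝ) < (r : ℝ) + 1 := by positivity
  -- the parameter `v`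
  obtain ⟨v, hv0, hv1, hv2⟩ : ∃ v : ℝ, 0 < v ∧ Mc - 1 ≤ v ∧
      2 * v * Real.log Mc < ((r : ℝ) + 1) ^ 2 := by
    rcases hM1.eq_or_lt with h | h
    · refine ⟨1, one_pos, by rw [← h]; norm_num, ?_⟩
      rw [← h, Real.log_one, mul_zero]
      positivity
    · exact ⟨Mc - 1, by linarith, le_refl _, hr⟩
  obtain ⟨x, y, h4, h5, _, _⟩ := masterZ n c (fun (i : Empty) _ => i.elim)
    (fun i => i.elim) (fun i => i.elim) 1 ((r : ℝ) + 1) v 0 one_pos hr1.le hv0
    (by simpa using hv1) (by simp) (by positivity) (by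
      rw [sub_zero, ← hMc]
      have h6 : (1 / Mc) ^ 2 = Real.exp (-(2 * Real.log Mc)) := by
        rw [Real.exp_neg, two_mul, Real.exp_add, Real.exp_log (by linarith)]
        rw [one_div, inv_pow, sq]
      rw [h6]
      refine Real.exp_lt_exp.2 (neg_lt_neg ?_)
      rw [lt_div_iff₀ hv0]
      linarith)
  refine ⟨x, y, h4, ?_⟩
  have h7 : (hammingDist x (y + 1) : ℝ) < ((r + 1 : ℕ) : ℝ) := by
    push_cast
    exact h5
  have h8 : hammingDist x (y + 1) < r + 1 := by exact_mod_cast h7
  omega

end Pool.Agent.MNS
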