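import Pool.Agent.MNS.Alg

/-!
# MNS (MP_73b4f2_co): a Tucker lemma on the skeleton of the subdivided cube

Cells of the cube `[0, 2 M]^n`, subdivided into `M^n` cubes, are lists of numbers `≤ 2 M`: an even
number is a vertex, an odd number an open edge of the path with `M` edges.
-/

set_option autoImplicit false

namespace Pool.Agent.MNS

/-! ### facets -/

/-- sum over the facets of a cell -/
def Bd {A : Type} [AddCommGroup A] : (List ℕ → A) → List ℕ → A
  | _, [] => 0
  | φ, k :: z =>
      (if k % 2 = 1 then φ ((k - 1) :: z) + φ ((k + 1) :: z) else 0) + Bd (fun w => φ (k :: w)) z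

section bd

variable {A : Type} [AddCommGroup A]

theorem Bd_add (z : List ℕ) : ∀ φ ψ : List ℕ → A,
    Bd (fun e => φ e + ψ e) z = Bd φ z + Bd ψ z := by
  induction z with
  | nil => intro φ ψ; simp [Bd]
  | cons k z ih =>
    intro φ ψ
    simp only [Bd]
    rw [ih]
    split_ifs
    · abel
    · abel

theorem Bd_zero (z : List ℕ) : Bd (fun _ => (0 : A)) z = 0 := by
  induction z with
  | nil => rfl
  | cons k z ih =>
    simp only [Bd]
    rw [ih]
    simp

theorem Bd_hom {A' : Type} [AddCommGroup A'] (f : A → A') (h0 : f 0 = 0)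
    (hf : ∀ a b, f (a + b) = f a + f b) (z : List ℕ) : ∀ φ : List ℕ → A,
    Bd (fun e => f (φ e)) z = f (Bd φ z) := by
  induction z with
  | nil => intro φ; simp [Bd, h0]
  | cons k z ih =>
    intro φ
    simp only [Bd]
    rw [ih, hf]
    split_ifs
    · rw [hf]
    · rw [h0]

theorem Bd_const (h2 : ∀ a : A, a + a = 0) (a : A) (z : List ℕ) : Bd (fun _ => a) z = 0 := by
  induction z with
  | nil => rfl
  | cons k z ih =>
    simp only [Bd]
    rw [ih, h2]
    simp

theorem Bd_even (φ : List ℕ → A) (k : ℕ) (hk : k % 2 = 0) (z : List ℕ) :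
    Bd φ (k :: z) = Bd (fun w => φ (k :: w)) z := by
  simp only [Bd]
  rw [if_neg (by omega), zero_add]

theorem Bd_Bd (h2 : ∀ a : A, a + a = 0) (z : List ℕ) : ∀ φ : List ℕ → A,
    Bd (Bd φ) z = 0 := by
  induction z with
  | nil => intro φ; rfl
  | cons k z ih =>
    intro φ
    have h1 : Bd (Bd φ) (k :: z) =
        (if k % 2 = 1 then Bd φ ((k - 1) :: z) + Bd φ ((k + 1) :: z) else 0) +
          Bd (fun w => Bd φ (k :: w)) z := rfl
    have h3 : (fun w => Bd φ (k :: w)) = fun w =>
        (if k % 2 = 1 then φ ((k - 1) :: w) + φ ((k + 1) :: w) else 0) +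
          Bd (fun w => φ (k :: w)) w := rfl
    rw [h1, h3, Bd_add, ih, add_zero]
    by_cases hk : k % 2 = 1
    · simp only [if_pos hk]
      rw [Bd_even φ (k - 1) (by omega), Bd_even φ (k + 1) (by omega), Bd_add, h2]
    · simp only [if_neg hk]
      rw [Bd_zero, add_zero]

end bd

/-- facets of a cell -/
inductive Fc : List ℕ → List ℕ → Prop
  | lo (k : ℕ) (z : List ℕ) : k % 2 = 1 → Fc ((k - 1) :: z) (k :: z)
  | hi (k : ℕ) (z : List ℕ) : k % 2 = 1 → Fc ((k + 1) :: z) (k :: z)
  | tl (k : ℕ) (z' z : List ℕ) : Fc z' z → Fc (k :: z') (k :: z)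

theorem Bd_congr {A : Type} [AddCommGroup A] (e : List ℕ) : ∀ φ ψ : List ℕ → A,
    (∀ e', Fc e' e → φ e' = ψ e') → Bd φ e = Bd ψ e := by
  induction e with
  | nil => intro φ ψ _; rfl
  | cons k z ih =>
    intro φ ψ h
    simp only [Bd]
    rw [ih (fun w => φ (k :: w)) (fun w => ψ (k :: w)) fun e' he' => h _ (Fc.tl k e' z he')]
    by_cases hk : k % 2 = 1
    · rw [if_pos hk, if_pos hk, h _ (Fc.lo k z hk), h _ (Fc.hi k z hk)]
    · rw [if_neg hk, if_neg hk]

theorem Bd_ne {m : ℕ} (τ : Fin m → SignType) (e : List ℕ) : ∀ φ : List ℕ → Al m,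
    Bd φ e τ ≠ 0 → ∃ e', Fc e' e ∧ φ e' τ ≠ 0 := by
  intro φ h
  by_contra hc
  push Not at hc
  apply h
  have h1 : Bd (fun e => φ e τ) e = Bd φ e τ :=
    Bd_hom (fun u : Al m => u τ) rfl (fun _ _ => rfl) e φ
  rw [← h1, Bd_congr e _ (fun _ => (0 : ZMod 2)) (fun e' he' => hc e' he'), Bd_zero]

/-- the relation of being a face, for coordinates -/
def Rc (a b : ℕ) : Prop := a = b ∨ (b % 2 = 1 ∧ (a + 1 = b ∨ a = b + 1))

/-- faces of a cell -/
def Sb (e' e : List ℕ) : Prop := List.Forall₂ Rc e' e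

theorem Sb_refl (e : List ℕ) : Sb e e := by
  induction e with
  | nil => exact List.Forall₂.nil
  | cons k z ih => exact List.Forall₂.cons (Or.inl rfl) ih

theorem Rc_trans {a b c : ℕ} (h1 : Rc a b) (h2 : Rc b c) : Rc a c := by
  unfold Rc at *
  omega

theorem Sb_trans {a b c : List ℕ} (h1 : Sb a b) (h2 : Sb b c) : Sb a c := by
  induction h1 generalizing c with
  | nil =>
    cases h2
    exact List.Forall₂.nil
  | cons hr _ ih =>
    cases h2 with
    | cons hr' ht' => exact List.Forall₂.cons (Rc_trans hr hr') (ih ht')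

theorem Fc_Sb {e' e : List ℕ} (h : Fc e' e) : Sb e' e := by
  induction h with
  | lo k z hk =>
    refine List.Forall₂.cons (Or.inr ⟨hk, Or.inl ?_⟩) (Sb_refl z)
    omega
  | hi k z hk => exact List.Forall₂.cons (Or.inr ⟨hk, Or.inr rfl⟩) (Sb_refl z)
  | tl k z' z _ ih => exact List.Forall₂.cons (Or.inl rfl) ih

/-! ### the region -/

/-- number of coordinates different from the two ends -/
def nf (M : ℕ) (z : List ℕ) : ℕ := z.countP (fun k => decide (k ≠ 0 ∧ k ≠ 2 * M))

/-- cells of the subdivided cube of dimension `n` in the `v`-skeleton of the cube -/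
def Rg (M n v : ℕ) (z : List ℕ) : Prop := z.length = n ∧ (∀ k ∈ z, k ≤ 2 * M) ∧ nf M z ≤ v

/-- the antipode -/
def nv (M : ℕ) (z : List ℕ) : List ℕ := z.map (fun k => 2 * M - k)

theorem nf_cons (M k : ℕ) (z : List ℕ) :
    nf M (k :: z) = nf M z + (if k ≠ 0 ∧ k ≠ 2 * M then 1 else 0) := by
  unfold nf
  rw [List.countP_cons]
  simp only [decide_eq_true_eq]

theorem Fc_nf {M : ℕ} {e' e : List ℕ} (h : Fc e' e) : nf M e' ≤ nf M e := by
  induction h with
  | lo k z hk =>
    rw [nf_cons, nf_cons, if_pos (show k ≠ 0 ∧ k ≠ 2 * M by omega)]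
    split_ifs <;> omega
  | hi k z hk =>
    rw [nf_cons, nf_cons, if_pos (show k ≠ 0 ∧ k ≠ 2 * M by omega)]
    split_ifs <;> omega
  | tl k z' z _ ih =>
    rw [nf_cons, nf_cons]
    omega

theorem Fc_le {M : ℕ} {e' e : List ℕ} (h : Fc e' e) :
    (∀ k ∈ e, k ≤ 2 * M) → ∀ k ∈ e', k ≤ 2 * M := by
  induction h with
  | lo k z hk =>
    intro h
    rw [List.forall_mem_cons] at h ⊢
    exact ⟨by omega, h.2⟩
  | hi k z hk =>
    intro h
    rw [List.forall_mem_cons] at h ⊢
    exact ⟨by omega, h.2⟩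
  | tl k z' z _ ih =>
    intro h
    rw [List.forall_mem_cons] at h ⊢
    exact ⟨h.1, ih h.2⟩

theorem Fc_Rg {M n v : ℕ} {e' e : List ℕ} (h : Fc e' e) (he : Rg M n v e) : Rg M n v e' :=
  ⟨by rw [(Fc_Sb h).length_eq]; exact he.1, Fc_le h he.2.1, (Fc_nf h).trans he.2.2⟩

theorem Rg_mono {M n v v' : ℕ} (hv : v ≤ v') {e : List ℕ} (he : Rg M n v e) : Rg M n v' e :=
  ⟨he.1, he.2.1, he.2.2.trans hv⟩

theorem nf_nv {M : ℕ} (e : List ℕ) (he : ∀ k ∈ e, k ≤ 2 * M) : nf M (nv M e) = nf M e := by
  induction e with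
  | nil => rfl
  | cons k z ih =>
    rw [List.forall_mem_cons] at he
    have h1 : nv M (k :: z) = (2 * M - k) :: nv M z := rfl
    rw [h1, nf_cons, nf_cons, ih he.2]
    have h2 := he.1
    congr 1
    by_cases h : k ≠ 0 ∧ k ≠ 2 * M
    · rw [if_pos h, if_pos (by omega)]
    · rw [if_neg h, if_neg (by omega)]

theorem nv_Rg {M n v : ℕ} {e : List ℕ} (he : Rg M n v e) : Rg M n v (nv M e) := by
  refine ⟨?_, ?_, ?_⟩
  · unfold nv
    rw [List.length_map]
    exact he.1
  · intro k hk
    unfold nv at hk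
    rw [List.mem_map] at hk
    obtain ⟨a, _, rfl⟩ := hk
    omega
  · rw [nf_nv e he.2.1]
    exact he.2.2

theorem Bd_nv {A : Type} [AddCommGroup A] {M : ℕ} (e : List ℕ) (he : ∀ k ∈ e, k ≤ 2 * M) :
    ∀ φ : List ℕ → A, Bd φ (nv M e) = Bd (fun w => φ (nv M w)) e := by
  induction e with
  | nil => intro φ; rfl
  | cons k z ih =>
    intro φ
    rw [List.forall_mem_cons] at he
    have h1 : nv M (k :: z) = (2 * M - k) :: nv M z := rfl
    rw [h1]
    simp only [Bd]
    rw [ih he.2 (fun w => φ ((2 * M - k) :: w))]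
    have h2 : (fun w => φ (nv M (k :: w))) = fun w => φ ((2 * M - k) :: nv M w) := rfl
    rw [h2]
    congr 1
    have hk := he.1
    by_cases h : k % 2 = 1
    · rw [if_pos h, if_pos (by omega)]
      have h3 : nv M ((k - 1) :: z) = (2 * M - k + 1) :: nv M z := by
        have : 2 * M - k + 1 = 2 * M - (k - 1) := by omega
        rw [this]
        rfl
      have h4 : nv M ((k + 1) :: z) = (2 * M - k - 1) :: nv M z := by
        have : 2 * M - k - 1 = 2 * M - (k + 1) := by omega
        rw [this]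
        rfl
      rw [h3, h4, add_comm]
    · rw [if_neg h, if_neg (by omega)]

/-! ### hemisphere chains -/

/-- the two ends -/
def ed (M : ℕ) (s : Bool) : ℕ := if s then 2 * M else 0

/-- sum over the cells of the hemisphere chain of dimension `d` -/
def Sm {A : Type} [AddCommGroup A] (M : ℕ) : ℕ → ℕ → Bool → (List ℕ → A) → A
  | 0, 0, _, φ => φ []
  | 0, _ + 1, _, _ => 0
  | n + 1, 0, s, φ => Sm M n 0 s (fun z => φ (ed M s :: z))
  | n + 1, d + 1, s, φ => Sm M n (d + 1) s (fun z => φ (ed M s :: z)) +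
      ∑ k ∈ Finset.range M, Sm M n d (!s) (fun z => φ ((2 * k + 1) :: z))

section sm

variable {A : Type} [AddCommGroup A] {M : ℕ}

theorem Sm_add (n : ℕ) : ∀ (d : ℕ) (s : Bool) (φ ψ : List ℕ → A),
    Sm M n d s (fun z => φ z + ψ z) = Sm M n d s φ + Sm M n d s ψ := by
  induction n with
  | zero =>
    intro d s φ ψ
    cases d with
    | zero => rfl
    | succ d => simp [Sm]
  | succ n ih =>
    intro d s φ ψ
    cases d with
    | zero =>
      simp only [Sm]
      rw [ih]
    | succ d =>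
      simp only [Sm]
      rw [ih, Finset.sum_congr rfl fun k _ => ih d (!s) (fun z => φ ((2 * k + 1) :: z))
        (fun z => ψ ((2 * k + 1) :: z)), Finset.sum_add_distrib]
      abel

theorem Sm_hom {A' : Type} [AddCommGroup A'] (f : A → A') (h0 : f 0 = 0)
    (hf : ∀ a b, f (a + b) = f a + f b) (n : ℕ) : ∀ (d : ℕ) (s : Bool) (φ : List ℕ → A),
    Sm M n d s (fun z => f (φ z)) = f (Sm M n d s φ) := by
  have hs : ∀ (t : Finset ℕ) (g : ℕ → A), f (∑ k ∈ t, g k) = ∑ k ∈ t, f (g k) := by
    intro t g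
    classical
    induction t using Finset.induction_on with
    | empty => simp [h0]
    | insert a t ha ih => rw [Finset.sum_insert ha, Finset.sum_insert ha, hf, ih]
  induction n with
  | zero =>
    intro d s φ
    cases d with
    | zero => rfl
    | succ d => simp [Sm, h0]
  | succ n ih =>
    intro d s φ
    cases d with
    | zero =>
      simp only [Sm]
      rw [ih]
    | succ d =>
      simp only [Sm]
      rw [ih, Finset.sum_congr rfl fun k _ => ih d (!s) (fun z => φ ((2 * k + 1) :: z)), hf, hs]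

theorem Sm_congr (n : ℕ) : ∀ (d : ℕ) (s : Bool) (φ ψ : List ℕ → A),
    (∀ z, Rg M n d z → φ z = ψ z) → Sm M n d s φ = Sm M n d s ψ := by
  have hend : ∀ (n d : ℕ) (s : Bool) (z : List ℕ), Rg M n d z → Rg M (n + 1) d (ed M s :: z) := by
    intro n d s z hz
    refine ⟨by rw [List.length_cons, hz.1], ?_, ?_⟩
    · rw [List.forall_mem_cons]
      refine ⟨?_, hz.2.1⟩
      unfold ed
      split_ifs <;> omega
    · rw [nf_cons, if_neg, add_zero]
      · exact hz.2.2
      · unfold ed
        split_ifs <;> simp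
  induction n with
  | zero =>
    intro d s φ ψ h
    cases d with
    | zero => exact h [] ⟨rfl, by simp, by simp [nf]⟩
    | succ d => rfl
  | succ n ih =>
    intro d s φ ψ h
    cases d with
    | zero =>
      simp only [Sm]
      exact ih 0 s _ _ fun z hz => h _ (hend n 0 s z hz)
    | succ d =>
      simp only [Sm]
      rw [ih (d + 1) s _ (fun z => ψ (ed M s :: z)) fun z hz => h _ (hend n (d + 1) s z hz)]
      congr 1
      refine Finset.sum_congr rfl fun k hk => ?_
      rw [Finset.mem_range] at hk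
      refine ih d (!s) _ _ fun z hz => h _ ⟨by rw [List.length_cons, hz.1], ?_, ?_⟩
      · rw [List.forall_mem_cons]
        exact ⟨by omega, hz.2.1⟩
      · rw [nf_cons, if_pos (by omega)]
        have := hz.2.2
        omega

theorem Sm_Bd0 (n : ℕ) : ∀ (s : Bool) (φ : List ℕ → A), Sm M n 0 s (Bd φ) = 0 := by
  induction n with
  | zero => intro s φ; rfl
  | succ n ih =>
    intro s φ
    have h1 : (fun z => Bd φ (ed M s :: z)) = Bd (fun w => φ (ed M s :: w)) := by
      funext z
      refine Bd_even φ _ ?_ z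
      unfold ed
      split_ifs <;> omega
    show Sm M n 0 s (fun z => Bd φ (ed M s :: z)) = 0
    rw [h1, ih]

theorem Sm_const0 (n : ℕ) (a : A) : ∀ s : Bool, Sm M n 0 s (fun _ => a) = a := by
  induction n with
  | zero => intro s; rfl
  | succ n ih => intro s; exact ih s

theorem tele (h2 : ∀ a : A, a + a = 0) (g : ℕ → A) (N : ℕ) :
    ∑ k ∈ Finset.range N, (g k + g (k + 1)) = g 0 + g N := by
  induction N with
  | zero => simp [h2]
  | succ N ih =>
    rw [Finset.sum_range_succ, ih]
    have : g 0 + g N + (g N + g (N + 1)) = g 0 + g (N + 1) + (g N + g N) := by abel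
    rw [this, h2, add_zero]

/-- the boundary of the hemisphere chains -/
theorem Sm_Bd (h2 : ∀ a : A, a + a = 0) (n : ℕ) : ∀ (d : ℕ) (s : Bool) (φ : List ℕ → A),
    Sm M n (d + 1) s (Bd φ) = Sm M n d s φ + Sm M n d (!s) φ := by
  induction n with
  | zero =>
    intro d s φ
    cases d with
    | zero =>
      show (0 : A) = φ [] + φ []
      rw [h2]
    | succ d =>
      show (0 : A) = 0 + 0
      rw [add_zero]
  | succ n ih =>
    intro d s φ
    have hends : ∀ s : Bool, ed M s % 2 = 0 := by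
      intro s
      unfold ed
      split_ifs <;> omega
    -- the two parts of the left side
    have h1 : (fun z => Bd φ (ed M s :: z)) = Bd (fun w => φ (ed M s :: w)) := by
      funext z
      exact Bd_even φ _ (hends s) z
    have h3 : ∀ k : ℕ, (fun z => Bd φ ((2 * k + 1) :: z)) = fun z =>
        (φ ((2 * k) :: z) + φ ((2 * (k + 1)) :: z)) + Bd (fun w => φ ((2 * k + 1) :: w)) z := by
      intro k
      funext z
      simp only [Bd]
      rw [if_pos (by omega)]
      rfl
    have h4 : Sm M (n + 1) (d + 1) s (Bd φ) =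
        Sm M n (d + 1) s (fun z => Bd φ (ed M s :: z)) +
        ∑ k ∈ Finset.range M, Sm M n d (!s) (fun z => Bd φ ((2 * k + 1) :: z)) := rfl
    have h5 : ∑ k ∈ Finset.range M, Sm M n d (!s) (fun z => Bd φ ((2 * k + 1) :: z)) =
        (Sm M n d (!s) (fun z => φ (0 :: z)) + Sm M n d (!s) (fun z => φ ((2 * M) :: z))) +
        ∑ k ∈ Finset.range M, Sm M n d (!s) (Bd (fun w => φ ((2 * k + 1) :: w))) := by
      have h6 : ∀ k ∈ Finset.range M, Sm M n d (!s) (fun z => Bd φ ((2 * k + 1) :: z)) =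
          (Sm M n d (!s) (fun z => φ ((2 * k) :: z)) +
            Sm M n d (!s) (fun z => φ ((2 * (k + 1)) :: z))) +
          Sm M n d (!s) (Bd (fun w => φ ((2 * k + 1) :: w))) := by
        intro k _
        rw [h3, Sm_add, Sm_add]
      rw [Finset.sum_congr rfl h6, Finset.sum_add_distrib,
        tele h2 (fun k => Sm M n d (!s) (fun z => φ ((2 * k) :: z)))]
    have h7 : Sm M n d (!s) (fun z => φ (0 :: z)) + Sm M n d (!s) (fun z => φ ((2 * M) :: z)) =
        Sm M n d (!s) (fun z => φ (ed M s :: z)) + Sm M n d (!s) (fun z => φ (ed M (!s) :: z)) := by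
      cases s
      · rfl
      · exact add_comm _ _
    rw [h4, h1, ih, h5, h7]
    have h8 : ∀ x y z w : A, x + y + (y + z + w) = x + (z + w) := by
      intro x y z w
      have : x + y + (y + z + w) = (y + y) + (x + (z + w)) := by abel
      rw [this, h2, zero_add]
    rw [h8]
    cases d with
    | zero =>
      rw [Finset.sum_eq_zero fun k _ => Sm_Bd0 n (!s) (fun w => φ ((2 * k + 1) :: w)), add_zero]
      rfl
    | succ d =>
      rw [Finset.sum_congr rfl fun k _ => ih d (!s) (fun w => φ ((2 * k + 1) :: w)),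
        Finset.sum_add_distrib]
      simp only [Sm, Bool.not_not]
      abel

theorem Sm_not (n : ℕ) : ∀ (d : ℕ) (s : Bool) (φ : List ℕ → A),
    Sm M n d (!s) φ = Sm M n d s (fun z => φ (nv M z)) := by
  have hends : ∀ (s : Bool), 2 * M - ed M s = ed M (!s) := by
    intro s
    cases s
    · show 2 * M - 0 = 2 * M
      omega
    · show 2 * M - 2 * M = 0
      omega
  induction n with
  | zero =>
    intro d s φ
    cases d with
    | zero => rfl
    | succ d => rfl
  | succ n ih =>
    intro d s φ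
    have h1 : (fun z => φ (nv M (ed M s :: z))) = fun z => φ (ed M (!s) :: nv M z) := by
      funext z
      have : nv M (ed M s :: z) = (2 * M - ed M s) :: nv M z := rfl
      rw [this, hends]
    cases d with
    | zero =>
      show Sm M n 0 (!s) (fun z => φ (ed M (!s) :: z)) = Sm M n 0 s (fun z => φ (nv M (ed M s :: z)))
      rw [h1, ih]
    | succ d =>
      show Sm M n (d + 1) (!s) (fun z => φ (ed M (!s) :: z)) +
          ∑ k ∈ Finset.range M, Sm M n d (!!s) (fun z => φ ((2 * k + 1) :: z)) =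
        Sm M n (d + 1) s (fun z => φ (nv M (ed M s :: z))) +
          ∑ k ∈ Finset.range M, Sm M n d (!s) (fun z => φ (nv M ((2 * k + 1) :: z)))
      rw [h1, ih (d + 1) s]
      congr 1
      rw [← Finset.sum_range_reflect (fun k => Sm M n d (!!s) (fun z => φ ((2 * k + 1) :: z)))]
      refine Finset.sum_congr rfl fun k hk => ?_
      rw [Finset.mem_range] at hk
      rw [ih d (!s)]
      congr 1
      funext z
      have h2 : nv M ((2 * k + 1) :: z) = (2 * M - (2 * k + 1)) :: nv M z := rfl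
      have h3 : 2 * (M - 1 - k) + 1 = 2 * M - (2 * k + 1) := by omega
      rw [h2, h3]

end sm

/-! ### flags and the Tucker lemma -/

/-- the chain of the flags with top cell `e` -/
def Fl {m : ℕ} (lam : List ℕ → Fin m × Bool) : ℕ → List ℕ → Al m
  | 0, e => mx (lam e) (one m)
  | d + 1, e => mx (lam e) (Bd (Fl lam d) e)

theorem mx_ne {m : ℕ} {l : Fin m × Bool} {u : Al m} {τ : Fin m → SignType} (h : mx l u τ ≠ 0) :
    τ l.1 = sg l.2 ∧ u (Function.update τ l.1 0) ≠ 0 := by
  unfold mx at h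
  by_cases h1 : τ l.1 = sg l.2
  · rw [if_pos h1] at h
    exact ⟨h1, h⟩
  · rw [if_neg h1] at h
    exact absurd rfl h

theorem Fl_supp {m : ℕ} (lam : List ℕ → Fin m × Bool) (d : ℕ) : ∀ (e : List ℕ)
    (τ : Fin m → SignType), Fl lam d e τ ≠ 0 → ∀ j, τ j ≠ 0 →
    ∃ e', Sb e' e ∧ (lam e').1 = j ∧ sg (lam e').2 = τ j := by
  induction d with
  | zero =>
    intro e τ h j hj
    obtain ⟨h1, h2⟩ := mx_ne h
    by_cases hjl : j = (lam e).1
    · subst hjl
      exact ⟨e, Sb_refl e, rfl, h1.symm⟩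
    · exfalso
      apply h2
      unfold one
      rw [if_neg]
      intro h3
      have h4 := congrFun h3 j
      rw [Function.update_of_ne hjl] at h4
      exact hj h4
  | succ d ih =>
    intro e τ h j hj
    obtain ⟨h1, h2⟩ := mx_ne h
    by_cases hjl : j = (lam e).1
    · subst hjl
      exact ⟨e, Sb_refl e, rfl, h1.symm⟩
    · obtain ⟨e'', he'', h3⟩ := Bd_ne _ e _ h2
      obtain ⟨e', he', h4, h5⟩ := ih e'' _ h3 j (by rw [Function.update_of_ne hjl]; exact hj)
      rw [Function.update_of_ne hjl] at h5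
      exact ⟨e', Sb_trans he' (Fc_Sb he''), h4, h5⟩

/-- Tucker lemma for the `m`-skeleton of the subdivided cube. -/
theorem tucker (M n m : ℕ) (lam : List ℕ → Fin m × Bool)
    (hn : ∀ e, Rg M n m e → lam (nv M e) = opp (lam e))
    (hc : ∀ e e', Rg M n m e → Sb e' e → lam e' ≠ opp (lam e)) : False := by
  have h2 : ∀ a : Al m, a + a = 0 := al2
  -- the vertex opposite to the label does not occur
  have hv : ∀ (d : ℕ) (e : List ℕ), Rg M n m e → ∀ τ : Fin m → SignType,
      τ (lam e).1 = -sg (lam e).2 → Bd (Fl lam d) e τ = 0 := by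
    intro d e he τ hτ
    by_contra h
    obtain ⟨e'', he'', h3⟩ := Bd_ne _ e _ h
    obtain ⟨e', he', h4, h5⟩ := Fl_supp lam d e'' τ h3 (lam e).1 (by
      rw [hτ]
      exact neg_sg_ne _)
    refine hc e e' he (Sb_trans he' (Fc_Sb he'')) ?_
    refine Prod.ext h4 ?_
    rw [hτ, ← sg_not] at h5
    show (lam e').2 = !(lam e).2
    generalize (lam e').2 = x at h5
    generalize (!(lam e).2) = y at h5
    revert h5
    cases x <;> cases y <;> decide
  -- boundaries
  have hd0 : ∀ e, dl (Fl lam 0 e) = one m := by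
    intro e
    show dl (mx (lam e) (one m)) = one m
    rw [dl_mx, dl_one, mx_zero, add_zero]
    intro τ hτ
    unfold one
    rw [if_neg]
    intro h
    rw [h] at hτ
    have h1 : (0 : SignType) = -sg (lam e).2 := hτ
    exact neg_sg_ne _ h1.symm
  have hd : ∀ (d : ℕ) (e : List ℕ), Rg M n m e → dl (Fl lam (d + 1) e) = Bd (Fl lam d) e := by
    intro d
    induction d with
    | zero =>
      intro e he
      show dl (mx (lam e) (Bd (Fl lam 0) e)) = _
      rw [dl_mx _ _ (hv 0 e he)]
      have h3 : dl (Bd (Fl lam 0) e) = 0 := by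
        rw [← Bd_hom dl dl_zero dl_add e (Fl lam 0)]
        rw [Bd_congr e (fun e => dl (Fl lam 0 e)) (fun _ => one m) fun e' _ => hd0 e']
        exact Bd_const h2 _ e
      rw [h3, mx_zero, add_zero]
    | succ d ih =>
      intro e he
      show dl (mx (lam e) (Bd (Fl lam (d + 1)) e)) = _
      rw [dl_mx _ _ (hv (d + 1) e he)]
      have h3 : dl (Bd (Fl lam (d + 1)) e) = 0 := by
        rw [← Bd_hom dl dl_zero dl_add e (Fl lam (d + 1))]
        rw [Bd_congr e (fun e => dl (Fl lam (d + 1) e)) (Bd (Fl lam d)) fun e' he' =>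
          ih e' (Fc_Rg he' he)]
        exact Bd_Bd h2 e _
      rw [h3, mx_zero, add_zero]
  -- equivariance
  have hq : ∀ (d : ℕ) (e : List ℕ), Rg M n m e → Fl lam d (nv M e) = nu (Fl lam d e) := by
    intro d
    induction d with
    | zero =>
      intro e he
      show mx (lam (nv M e)) (one m) = nu (mx (lam e) (one m))
      rw [hn e he, nu_mx, nu_one]
    | succ d ih =>
      intro e he
      show mx (lam (nv M e)) (Bd (Fl lam d) (nv M e)) = nu (mx (lam e) (Bd (Fl lam d) e))
      rw [hn e he, nu_mx, Bd_nv e he.2.1]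
      congr 1
      rw [← Bd_hom nu nu_zero nu_add e (Fl lam d)]
      exact Bd_congr e _ _ fun e' he' => ih e' (Fc_Rg he' he)
  refine elim m (fun d => Sm M n d true (Fl lam d)) 0 ?_ ?_
  · show dl (Sm M n 0 true (Fl lam 0)) = _
    rw [← Sm_hom dl dl_zero dl_add n 0 true (Fl lam 0)]
    rw [Sm_congr n 0 true (fun e => dl (Fl lam 0 e)) (fun _ => one m) fun e _ => hd0 e, Sm_const0]
    rw [nu_zero, add_zero, add_zero]
  · intro d hdm
    show dl (Sm M n (d + 1) true (Fl lam (d + 1))) = Sm M n d true (Fl lam d) +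
      nu (Sm M n d true (Fl lam d))
    rw [← Sm_hom dl dl_zero dl_add n (d + 1) true (Fl lam (d + 1))]
    rw [Sm_congr n (d + 1) true (fun e => dl (Fl lam (d + 1) e)) (Bd (Fl lam d)) fun e he =>
      hd d e (Rg_mono (by omega) he)]
    rw [Sm_Bd h2]
    congr 1
    rw [Sm_not n d true, ← Sm_hom nu nu_zero nu_add n d true (Fl lam d)]
    exact Sm_congr n d true _ _ fun e he => hq d e (Rg_mono (by omega) he)

end Pool.Agent.MNS
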