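import Pool.Agent.MNS.Rnd
import Pool.Agent.MNS.Blk

/-!
# MNS (MP_73b4f2_co): large coefficients and anti-concentration
-/

set_option autoImplicit false

namespace Pool.Agent.MNS

/-- The largest coefficients. -/
theorem head {n : ℕ} (a : Fin n → ℝ) (h : ℕ) :
    ∃ (H : Finset (Fin n)) (μ : ℝ), H.card ≤ h ∧ 0 ≤ μ ∧ (∀ j ∉ H, |a j| ≤ μ) ∧
      (∀ j ∈ H, μ ≤ |a j|) ∧ (μ = 0 ∨ H.card = h) := by
  classical
  induction h with
  | zero =>
    refine ⟨∅, ∑ j, |a j|, by simp, Finset.sum_nonneg fun j _ => abs_nonneg _, ?_, by simp,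
      Or.inr (by simp)⟩
    intro j _
    exact Finset.single_le_sum (f := fun j => |a j|) (fun j _ => abs_nonneg _) (Finset.mem_univ j)
  | succ h ih =>
    obtain ⟨H, μ, h1, h2, h3, h4, h5⟩ := ih
    rcases h5 with h5 | h5
    · exact ⟨H, μ, by omega, h2, h3, h4, Or.inl h5⟩
    · by_cases hne : (Finset.univ \ H).Nonempty
      · obtain ⟨i, hi, hmax⟩ := Finset.exists_max_image (Finset.univ \ H) (fun j => |a j|) hne
        have hi' : i ∉ H := (Finset.mem_sdiff.1 hi).2
        refine ⟨insert i H, |a i|, ?_, abs_nonneg _, ?_, ?_, Or.inr ?_⟩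
        · rw [Finset.card_insert_of_notMem hi']
          omega
        · intro j hj
          rw [Finset.mem_insert, not_or] at hj
          exact hmax j (Finset.mem_sdiff.2 ⟨Finset.mem_univ _, hj.2⟩)
        · intro j hj
          rw [Finset.mem_insert] at hj
          rcases hj with rfl | hj
          · exact le_refl _
          · exact (h3 i hi').trans (h4 j hj)
        · rw [Finset.card_insert_of_notMem hi']
          omega
      · rw [Finset.not_nonempty_iff_eq_empty, Finset.sdiff_eq_empty_iff_subset] at hne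
        refine ⟨H, 0, by omega, le_refl _, ?_, ?_, Or.inl rfl⟩
        · intro j hj
          exact absurd (hne (Finset.mem_univ j)) hj
        · intro j _
          exact abs_nonneg _

/-- partial sums -/
noncomputable def ps {n : ℕ} (a : Fin n → ℝ) (G : Finset (Fin n)) (X : Fin n → ZMod 2) : ℝ :=
  ∑ j ∈ G, if X j = 0 then 0 else a j

open Classical in
/-- Anti-concentration (Littlewood and Offord, Erdős). -/
theorem LO {n : ℕ} (a : Fin n → ℝ) (G H : Finset (Fin n)) (hHG : H ⊆ G) (μ : ℝ) (hμ : 0 < μ)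
    (hH : ∀ j ∈ H, μ ≤ |a j|) (c : ℝ) :
    (Finset.univ.filter fun X : Fin n → ZMod 2 => c < ps a G X ∧ ps a G X ≤ c + μ).card *
      2 ^ H.card ≤ (H.card).choose (H.card / 2) * 2 ^ n := by
  set Bad := Finset.univ.filter fun X : Fin n → ZMod 2 => c < ps a G X ∧ ps a G X ≤ c + μ with hBad
  -- the vector with the part `Z` on `H`, and `Y` outside
  let cmb : (Fin n → ZMod 2) → Finset H → (Fin n → ZMod 2) := fun Y Z j =>
    if hj : j ∈ H then (if ((⟨j, hj⟩ : H) ∈ Z) ↔ 0 ≤ a j then 1 else 0) else Y j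
  let dec : (Fin n → ZMod 2) → Finset H := fun X =>
    Finset.univ.filter fun j : H => X j.1 ≠ 0 ↔ 0 ≤ a j.1
  have hcd : ∀ X Y : Fin n → ZMod 2, (∀ j ∉ H, X j = Y j) → cmb Y (dec X) = X := by
    intro X Y hXY
    funext j
    by_cases hj : j ∈ H
    · show (if hj : j ∈ H then (if ((⟨j, hj⟩ : H) ∈ dec X) ↔ 0 ≤ a j then (1 : ZMod 2) else 0)
        else Y j) = X j
      rw [dif_pos hj]
      have h1 : ((⟨j, hj⟩ : H) ∈ dec X) ↔ (X j ≠ 0 ↔ 0 ≤ a j) := by
        show (⟨j, hj⟩ : H) ∈ Finset.univ.filter (fun j : H => X j.1 ≠ 0 ↔ 0 ≤ a j.1) ↔ _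
        rw [Finset.mem_filter]
        simp
      rcases zcase (X j) with h2 | h2
      · rw [h2, if_neg]
        rw [h1, h2]
        have h4 : ¬ ((0 : ZMod 2) ≠ 0) := by simp
        tauto
      · rw [h2, if_pos]
        rw [h1, h2]
        simp
    · show (if hj : j ∈ H then (if ((⟨j, hj⟩ : H) ∈ dec X) ↔ 0 ≤ a j then (1 : ZMod 2) else 0)
        else Y j) = X j
      rw [dif_neg hj]
      exact (hXY j hj).symm
  -- the sum for such a vector
  have hps : ∀ Y Z, ps a G (cmb Y Z) = (∑ j ∈ G \ H, if Y j = 0 then 0 else a j) +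
      (∑ j : H, min (a j.1) 0) + ∑ j ∈ Z, |a j.1| := by
    intro Y Z
    unfold ps
    rw [← Finset.sum_sdiff hHG, add_assoc]
    congr 1
    · refine Finset.sum_congr rfl fun j hj => ?_
      have h1 : cmb Y Z j = Y j := dif_neg (Finset.mem_sdiff.1 hj).2
      rw [h1]
    · have h2 : ∑ j ∈ Z, |a j.1| = ∑ j : H, if j ∈ Z then |a j.1| else 0 := by
        rw [Finset.sum_ite_mem, Finset.univ_inter]
      rw [h2, ← Finset.sum_add_distrib, ← Finset.sum_coe_sort H]
      refine Finset.sum_congr rfl fun j _ => ?_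
      have h3 : cmb Y Z j.1 = if (j ∈ Z) ↔ 0 ≤ a j.1 then 1 else 0 := dif_pos j.2
      by_cases h4 : j ∈ Z
      · rw [if_pos h4]
        by_cases h5 : 0 ≤ a j.1
        · have hv : cmb Y Z j.1 = 1 := by rw [h3, if_pos (by simp [h4, h5])]
          rw [hv, if_neg (by decide), min_eq_right h5, abs_of_nonneg h5, zero_add]
        · have hv : cmb Y Z j.1 = 0 := by rw [h3, if_neg (by simp [h4, h5])]
          push Not at h5
          rw [hv, if_pos rfl, min_eq_left h5.le, abs_of_neg h5]
          ring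
      · rw [if_neg h4]
        by_cases h5 : 0 ≤ a j.1
        · have hv : cmb Y Z j.1 = 0 := by rw [h3, if_neg (by simp [h4, h5])]
          rw [hv, if_pos rfl, min_eq_right h5, zero_add]
        · have hv : cmb Y Z j.1 = 1 := by rw [h3, if_pos (by simp [h4, h5])]
          push Not at h5
          rw [hv, if_neg (by decide), min_eq_left h5.le, add_zero]
  -- the antichains
  have hsp : ∀ Y, (Finset.univ.filter fun Z : Finset H => cmb Y Z ∈ Bad).card ≤
      (H.card).choose (H.card / 2) := by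
    intro Y
    have h1 : IsAntichain (· ⊆ ·)
        ((Finset.univ.filter fun Z : Finset H => cmb Y Z ∈ Bad : Finset (Finset H)) :
          Set (Finset H)) := by
      intro Z hZ Z' hZ' hne hsub
      rw [Finset.mem_coe, Finset.mem_filter, hBad, Finset.mem_filter] at hZ hZ'
      have h2 := hZ.2.2.1
      have h3 := hZ'.2.2.2
      rw [hps] at h2 h3
      obtain ⟨j, hj, hj'⟩ := Finset.exists_of_ssubset
        (Finset.ssubset_iff_subset_ne.2 ⟨hsub, hne⟩)
      have h4 : ∑ j ∈ Z, |a j.1| + |a j.1| ≤ ∑ j ∈ Z', |a j.1| := by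
        rw [add_comm, ← Finset.sum_insert (f := fun j : H => |a j.1|) hj']
        refine Finset.sum_le_sum_of_subset_of_nonneg ?_ fun _ _ _ => abs_nonneg _
        exact Finset.insert_subset hj hsub
      have h5 := hH j.1 j.2
      linarith
    have h2 := h1.sperner
    rw [Fintype.card_coe] at h2
    exact h2
  -- double counting
  set Pairs := (Finset.univ : Finset ((Fin n → ZMod 2) × Finset H)).filter
    fun p => cmb p.1 p.2 ∈ Bad with hPairs
  have hP1 : Pairs.card ≤ (H.card).choose (H.card / 2) * 2 ^ n := by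
    have h1 : Pairs.card = ∑ Y : Fin n → ZMod 2,
        (Finset.univ.filter fun Z : Finset H => cmb Y Z ∈ Bad).card := by
      rw [hPairs, Finset.card_filter, Fintype.sum_prod_type]
      refine Finset.sum_congr rfl fun Y _ => ?_
      rw [Finset.card_filter]
    rw [h1]
    refine (Finset.sum_le_card_nsmul _ _ _ fun Y _ => hsp Y).trans (le_of_eq ?_)
    rw [Finset.card_univ, Fintype.card_fun, ZMod.card, Fintype.card_fin, smul_eq_mul, mul_comm]
  have hP2 : Bad.card * 2 ^ H.card ≤ Pairs.card := by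
    have h1 : Bad.card * 2 ^ H.card = (Bad ×ˢ (Finset.univ : Finset (Finset H))).card := by
      rw [Finset.card_product, Finset.card_univ, Fintype.card_finset, Fintype.card_coe]
    rw [h1]
    let Ψ : (Fin n → ZMod 2) × Finset H → (Fin n → ZMod 2) × Finset H := fun p =>
      (fun j => if hj : j ∈ H then (if (⟨j, hj⟩ : H) ∈ p.2 then 1 else 0) else p.1 j, dec p.1)
    have hΨ : ∀ (p : (Fin n → ZMod 2) × Finset H) (j : Fin n), j ∉ H → p.1 j = (Ψ p).1 j := by
      intro p j hj
      simp only [Ψ]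
      rw [dif_neg hj]
    refine Finset.card_le_card_of_injOn Ψ ?_ ?_
    · intro p hp
      rw [Finset.mem_coe, Finset.mem_product] at hp
      rw [Finset.mem_coe, hPairs, Finset.mem_filter]
      refine ⟨Finset.mem_univ _, ?_⟩
      have h2 : cmb (Ψ p).1 (Ψ p).2 = p.1 := by
        exact hcd p.1 (Ψ p).1 fun j hj => hΨ p j hj
      rw [h2]
      exact hp.1
    · intro p _ p' _ heq
      have h2 : cmb (Ψ p).1 (Ψ p).2 = p.1 := by
        exact hcd p.1 (Ψ p).1 fun j hj => hΨ p j hj
      have h2' : cmb (Ψ p').1 (Ψ p').2 = p'.1 := by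
        exact hcd p'.1 (Ψ p').1 fun j hj => hΨ p' j hj
      have h3 : p.1 = p'.1 := by rw [← h2, ← h2', heq]
      have h4 : p.2 = p'.2 := by
        ext j
        have h5 : (Ψ p).1 j.1 = (Ψ p').1 j.1 := by rw [heq]
        have h6 : (Ψ p).1 j.1 = if j ∈ p.2 then 1 else 0 := dif_pos j.2
        have h7 : (Ψ p').1 j.1 = if j ∈ p'.2 then 1 else 0 := dif_pos j.2
        rw [h6, h7] at h5
        by_cases h8 : j ∈ p.2 <;> by_cases h9 : j ∈ p'.2 <;> simp [h8, h9] at h5 ⊢
      exact Prod.ext h3 h4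
  exact hP2.trans hP1

/-- Upper bound for the central binomial coefficient. -/
theorem central (g : ℕ) : (2 * g + 1) * (2 * g).choose g ^ 2 ≤ (2 ^ (2 * g)) ^ 2 := by
  have h1 : ∀ g : ℕ, (2 * g + 1) * g.centralBinom ^ 2 ≤ 16 ^ g := by
    intro g
    induction g with
    | zero => simp
    | succ g ih =>
      have h2 := Nat.succ_mul_centralBinom_succ g
      -- multiply by `(g+1)^2`
      have h3 : (g + 1) ^ 2 * ((2 * (g + 1) + 1) * (g + 1).centralBinom ^ 2) ≤
          (g + 1) ^ 2 * 16 ^ (g + 1) := by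
        have h4 : (g + 1) ^ 2 * ((2 * (g + 1) + 1) * (g + 1).centralBinom ^ 2) =
            (2 * (g + 1) + 1) * ((g + 1) * (g + 1).centralBinom) ^ 2 := by ring
        rw [h4, h2]
        have h5 : (2 * (g + 1) + 1) * (2 * (2 * g + 1) * g.centralBinom) ^ 2 =
            (4 * ((2 * g + 3) * (2 * g + 1))) * ((2 * g + 1) * g.centralBinom ^ 2) := by ring
        rw [h5]
        have h6 : 4 * ((2 * g + 3) * (2 * g + 1)) ≤ 16 * (g + 1) ^ 2 := by nlinarith
        calc 4 * ((2 * g + 3) * (2 * g + 1)) * ((2 * g + 1) * g.centralBinom ^ 2) ≤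
            16 * (g + 1) ^ 2 * 16 ^ g := Nat.mul_le_mul h6 ih
          _ = (g + 1) ^ 2 * 16 ^ (g + 1) := by ring
      exact Nat.le_of_mul_le_mul_left h3 (by positivity)
  have h2 := h1 g
  rw [Nat.centralBinom] at h2
  have h3 : (2 ^ (2 * g)) ^ 2 = 16 ^ g := by
    rw [← pow_mul, show 2 * g * 2 = 4 * g by ring, pow_mul]
    norm_num
  rw [h3]
  exact h2

/-- `q` copies of the central binomial coefficient are less than the power of two. -/
theorem central_lt (g q : ℕ) (h : q ^ 2 ≤ 2 * g) : q * (2 * g).choose g < 2 ^ (2 * g) := by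
  have h1 := central g
  by_contra hc
  push Not at hc
  have h2 : (2 ^ (2 * g)) ^ 2 ≤ (q * (2 * g).choose g) ^ 2 := Nat.pow_le_pow_left hc 2
  have h3 : 0 < (2 * g).choose g ^ 2 := pow_pos (Nat.choose_pos (by omega)) 2
  rw [mul_pow] at h2
  have h4 : q ^ 2 * (2 * g).choose g ^ 2 < (2 * g + 1) * (2 * g).choose g ^ 2 :=
    Nat.mul_lt_mul_of_pos_right (by omega) h3
  omega

end Pool.Agent.MNS
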