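import Pool.Agent.MNS.Zero

/-!
# MNS (MP_73b4f2_co): balanced nearly antipodal pairs with the same colour
-/

set_option autoImplicit false

namespace Pool.Agent.MNS

/-- approximate balance of finitely many odd functions under a product measure with few free
coordinates -/
theorem approxG (n : ℕ) {ι : Type} [Fintype ι] (G : ι → List Bool → ℝ)
    (hG1 : ∀ i x, |G i x| ≤ 1) (hGo : ∀ i (x : List Bool), x.length = n → G i (cp x) = -G i x)
    (δ : ℝ) (hδ : 0 < δ) : ∃ p : List ℝ, p.length = n ∧ Pr p ∧ fr p ≤ Fintype.card ι ∧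
      ∀ i, |Ex p (G i)| < δ := by
  set e := Fintype.equivFin ι
  obtain ⟨p, h1, h2, h3, h4⟩ := approx n (Fintype.card ι) (fun i p => Ex p (G (e.symm i))) 2
    (by
      intro i p hp _
      rw [Ex_cp, Ex_congr p (fun x => G (e.symm i) (cp x)) (fun x => -G (e.symm i) x), Ex_neg]
      intro x hx
      exact hGo _ x (hx.trans hp))
    (by
      intro i p q hp hq hp' hq'
      exact Ex_lip p q _ (hp.trans hq.symm) hp' hq' (hG1 _)) δ hδ
  refine ⟨p, h1, h2, h3, fun i => ?_⟩
  have := h4 (e i)
  rwa [e.symm_apply_apply] at this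

theorem cp_hd (x : List Bool) : ∀ y, hd (cp x) (cp y) = hd x y := by
  induction x with
  | nil => intro y; simp [cp, hd]
  | cons a x ih =>
    intro y
    cases y with
    | nil => simp [cp, hd]
    | cons b y =>
      have h1 : cp (a :: x) = (!a) :: cp x := rfl
      have h2 : cp (b :: y) = (!b) :: cp y := rfl
      rw [h1, h2]
      simp only [hd]
      rw [ih]
      congr 1
      cases a <;> cases b <;> simp

/-- upper tail of an odd Lipschitz function which is balanced -/
theorem tail (n : ℕ) (p : List ℝ) (hn : p.length = n) (hp : Pr p) (f : List Bool → ℝ)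
    (hlip : ∀ x y : List Bool, x.length = n → y.length = n → |f x - f y| ≤ hd x y) (t v δ : ℝ)
    (ht : 0 < t) (hv : 0 < v) (hfr : (fr p : ℝ) ≤ v) (hδ1 : δ < 1)
    (hb : |Ex p (fun x => ind (fun x => 0 < f x) x - ind (fun x => f x < 0) x)| < δ) :
    Ex p (ind fun x => t ≤ |f x|) ≤ 4 * Real.exp (-(t ^ 2 / v)) / (1 - δ) := by
  set e := Real.exp (-(t ^ 2 / v)) with he
  have hδ : 0 < 1 - δ := by linarith
  rw [abs_lt] at hb
  -- the measure of the nonpositive part
  have h1 : (1 - δ) / 2 ≤ Ex p (ind fun x => f x ≤ 0) := by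
    have h2 : Ex p (fun x => (1 / 2) * (1 + -(ind (fun x => 0 < f x) x -
        ind (fun x => f x < 0) x))) ≤ Ex p (ind fun x => f x ≤ 0) := by
      refine Ex_mono p _ _ hp fun x _ => ?_
      rcases lt_trichotomy (f x) 0 with h | h | h
      · rw [ind_neg (P := fun x => 0 < f x) (by simpa using h.le),
          ind_pos (P := fun x => f x < 0) h, ind_pos (P := fun x => f x ≤ 0) h.le]
        norm_num
      · rw [ind_neg (P := fun x => 0 < f x) (by simp [h]),
          ind_neg (P := fun x => f x < 0) (by simp [h]), ind_pos (P := fun x => f x ≤ 0) h.le]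
        norm_num
      · rw [ind_pos (P := fun x => 0 < f x) h,
          ind_neg (P := fun x => f x < 0) (by simpa using h.le),
          ind_neg (P := fun x => f x ≤ 0) (by simpa using h)]
        norm_num
    rw [Ex_mul, Ex_add, Ex_const, Ex_neg] at h2
    linarith
  have h1' : (1 - δ) / 2 ≤ Ex p (ind fun x => 0 ≤ f x) := by
    have h2 : Ex p (fun x => (1 / 2) * (1 + (ind (fun x => 0 < f x) x -
        ind (fun x => f x < 0) x))) ≤ Ex p (ind fun x => 0 ≤ f x) := by
      refine Ex_mono p _ _ hp fun x _ => ?_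
      rcases lt_trichotomy (f x) 0 with h | h | h
      · rw [ind_neg (P := fun x => 0 < f x) (by simpa using h.le),
          ind_pos (P := fun x => f x < 0) h, ind_neg (P := fun x => 0 ≤ f x) (by simpa using h)]
        norm_num
      · rw [ind_neg (P := fun x => 0 < f x) (by simp [h]),
          ind_neg (P := fun x => f x < 0) (by simp [h]), ind_pos (P := fun x => 0 ≤ f x) h.ge]
        norm_num
      · rw [ind_pos (P := fun x => 0 < f x) h,
          ind_neg (P := fun x => f x < 0) (by simpa using h.le),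
          ind_pos (P := fun x => 0 ≤ f x) h.le]
        norm_num
    rw [Ex_mul, Ex_add, Ex_const] at h2
    linarith
  have h3 : Ex p (ind fun x => t ≤ f x) * Ex p (ind fun x => f x ≤ 0) ≤ e := by
    refine two_set p hp _ _ t ht.le ?_ v hv hfr
    intro x y hx hy h4 h5
    have h6 := hlip x y (hx.trans hn) (hy.trans hn)
    have h7 := le_abs_self (f x - f y)
    linarith
  have h3' : Ex p (ind fun x => f x ≤ -t) * Ex p (ind fun x => 0 ≤ f x) ≤ e := by
    refine two_set p hp _ _ t ht.le ?_ v hv hfr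
    intro x y hx hy h4 h5
    have h6 := hlip x y (hx.trans hn) (hy.trans hn)
    have h7 := neg_abs_le (f x - f y)
    linarith
  have h8 : Ex p (ind fun x => t ≤ |f x|) ≤
      Ex p (fun x => ind (fun x => t ≤ f x) x + ind (fun x => f x ≤ -t) x) := by
    refine Ex_mono p _ _ hp fun x _ => ?_
    by_cases h : t ≤ |f x|
    · rw [ind_pos (P := fun x => t ≤ |f x|) h]
      rcases abs_cases (f x) with ⟨h9, _⟩ | ⟨h9, _⟩
      · rw [ind_pos (P := fun x => t ≤ f x) (by linarith)]
        linarith [ind_nonneg (fun x => f x ≤ -t) x]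
      · rw [ind_pos (P := fun x => f x ≤ -t) (by linarith)]
        linarith [ind_nonneg (fun x => t ≤ f x) x]
    · rw [ind_neg (P := fun x => t ≤ |f x|) h]
      linarith [ind_nonneg (fun x => f x ≤ -t) x, ind_nonneg (fun x => t ≤ f x) x]
  rw [Ex_add] at h8
  have hn1 := Ex_nonneg p (ind fun x => t ≤ f x) hp (ind_nonneg _)
  have hn2 := Ex_nonneg p (ind fun x => f x ≤ -t) hp (ind_nonneg _)
  have h10 : Ex p (ind fun x => t ≤ f x) * ((1 - δ) / 2) ≤ e :=
    (mul_le_mul_of_nonneg_left h1 hn1).trans h3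
  have h11 : Ex p (ind fun x => f x ≤ -t) * ((1 - δ) / 2) ≤ e :=
    (mul_le_mul_of_nonneg_left h1' hn2).trans h3'
  refine h8.trans ?_
  rw [le_div_iff₀ hδ]
  have h12 : (Ex p (ind fun x => t ≤ f x) + Ex p (ind fun x => f x ≤ -t)) * (1 - δ) =
      2 * (Ex p (ind fun x => t ≤ f x) * ((1 - δ) / 2)) +
      2 * (Ex p (ind fun x => f x ≤ -t) * ((1 - δ) / 2)) := by ring
  have h13 : Ex p (ind fun x => t ≤ f x) + Ex p (ind fun x => f x ≤ -t) =
    Ex p (fun x => ind (fun x => t ≤ f x) x) + Ex p (fun x => ind (fun x => f x ≤ -t) x) := rfl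
  rw [← h13, h12]
  linarith

open Classical in
/-- Balanced nearly antipodal pairs with the same colour: if the cube is coloured with the colours
`κ` and the functions `f i` are odd and Lipschitz then there are `x`, `y` of the same colour, which
agree in fewer than `r` coordinates, at which all functions are at most `t` in absolute value. -/
theorem master (n : ℕ) {κ ι : Type} [Fintype κ] [Fintype ι] [Nonempty κ]
    (c : List Bool → κ) (f : ι → List Bool → ℝ)
    (hodd : ∀ i (x : List Bool), x.length = n → f i (cp x) = -f i x)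
    (hlip : ∀ i (x y : List Bool), x.length = n → y.length = n → |f i x - f i y| ≤ hd x y)
    (t r v ε : ℝ) (ht : 0 < t) (hr : 0 ≤ r) (hv : 0 < v)
    (hN : (Fintype.card κ : ℝ) - 1 + Fintype.card ι ≤ v)
    (h1 : 4 * (Fintype.card ι : ℝ) * Real.exp (-(t ^ 2 / v)) ≤ ε)
    (h2 : ε < 1 / Fintype.card κ)
    (h3 : Real.exp (-(r ^ 2 / v)) < (1 / (Fintype.card κ : ℝ) - ε) ^ 2) :
    ∃ x y : List Bool, x.length = n ∧ y.length = n ∧ c x = c y ∧ (hd x (cp y) : ℝ) < r ∧
      (∀ i, |f i x| < t) ∧ ∀ i, |f i y| < t := by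
  obtain ⟨k0⟩ := ‹Nonempty κ›
  set Mc : ℝ := (Fintype.card κ : ℝ) with hMc
  have hMpos : 0 < Mc := by
    rw [hMc]
    exact_mod_cast Fintype.card_pos_iff.2 ⟨k0⟩
  have hM1 : 1 ≤ Mc := by
    rw [hMc]
    exact_mod_cast Fintype.card_pos_iff.2 ⟨k0⟩
  -- the choice of `δ`
  obtain ⟨δ, hδ0, hδ1, hδ2, hδ3⟩ : ∃ δ : ℝ, 0 < δ ∧ δ < 1 ∧
      0 < 1 / Mc - Mc * δ - ε / (1 - δ) ∧
      Real.exp (-(r ^ 2 / v)) < (1 / Mc - ε / (1 - δ)) * (1 / Mc - Mc * δ - ε / (1 - δ)) := by
    have c1 : ContinuousAt (fun δ : ℝ => 1 / Mc - Mc * δ - ε / (1 - δ)) 0 := by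
      refine ContinuousAt.sub (ContinuousAt.sub continuousAt_const ?_) ?_
      · exact (continuous_const.mul continuous_id).continuousAt
      · refine ContinuousAt.div continuousAt_const ?_ (by norm_num)
        exact (continuous_const.sub continuous_id).continuousAt
    have c2 : ContinuousAt (fun δ : ℝ => 1 / Mc - ε / (1 - δ)) 0 := by
      refine ContinuousAt.sub continuousAt_const ?_
      refine ContinuousAt.div continuousAt_const ?_ (by norm_num)
      exact (continuous_const.sub continuous_id).continuousAt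
    have e1 : ∀ᶠ δ in nhds (0 : ℝ), 0 < 1 / Mc - Mc * δ - ε / (1 - δ) := by
      refine c1.eventually_const_lt ?_
      simp only [mul_zero, sub_zero, div_one]
      linarith
    have e2 : ∀ᶠ δ in nhds (0 : ℝ), Real.exp (-(r ^ 2 / v)) <
        (1 / Mc - ε / (1 - δ)) * (1 / Mc - Mc * δ - ε / (1 - δ)) := by
      refine (c2.mul c1).eventually_const_lt ?_
      show Real.exp (-(r ^ 2 / v)) <
        (1 / Mc - ε / (1 - 0)) * (1 / Mc - Mc * 0 - ε / (1 - 0))
      simp only [mul_zero, sub_zero, div_one]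
      rw [sq (1 / Mc - ε)] at h3
      exact h3
    have e3 : ∀ᶠ δ in nhds (0 : ℝ), δ < 1 := gt_mem_nhds one_pos
    have e4 := (e1.and (e2.and e3)).filter_mono (nhdsWithin_le_nhds (s := Set.Ioi (0 : ℝ)))
    obtain ⟨δ, ⟨h4, h5, h6⟩, h7⟩ := (e4.and self_mem_nhdsWithin).exists
    exact ⟨δ, h7, h6, h4, h5⟩
  -- the balanced measure
  let G : {k : κ // k ≠ k0} ⊕ ι → List Bool → ℝ := fun i => match i with
    | Sum.inl k => fun x => ind (fun x => c x = k.1) x - ind (fun x => c (cp x) = k.1) x
    | Sum.inr i => fun x => ind (fun x => 0 < f i x) x - ind (fun x => f i x < 0) x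
  obtain ⟨p, hp1, hp2, hp3, hp4⟩ := approxG n G
    (by
      intro i x
      have hh : ∀ P Q : List Bool → Prop, |ind P x - ind Q x| ≤ 1 := by
        intro P Q
        rw [abs_le]
        constructor <;> linarith [ind_nonneg P x, ind_nonneg Q x, ind_le P x, ind_le Q x]
      rcases i with k | i
      · exact hh _ _
      · exact hh _ _)
    (by
      intro i x hx
      rcases i with k | i
      · show ind (fun x => c x = k.1) (cp x) - ind (fun x => c (cp x) = k.1) (cp x) =
          -(ind (fun x => c x = k.1) x - ind (fun x => c (cp x) = k.1) x)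
        have e1 : ind (fun x => c x = k.1) (cp x) = ind (fun x => c (cp x) = k.1) x := rfl
        have e2 : ind (fun x => c (cp x) = k.1) (cp x) = ind (fun x => c x = k.1) x := by
          show (if c (cp (cp x)) = k.1 then (1 : ℝ) else 0) = if c x = k.1 then (1 : ℝ) else 0
          rw [cp_cp]
        rw [e1, e2]
        ring
      · show ind (fun x => 0 < f i x) (cp x) - ind (fun x => f i x < 0) (cp x) =
          -(ind (fun x => 0 < f i x) x - ind (fun x => f i x < 0) x)
        have e1 : ind (fun x => 0 < f i x) (cp x) = ind (fun x => f i x < 0) x := by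
          show (if 0 < f i (cp x) then (1 : ℝ) else 0) = if f i x < 0 then (1 : ℝ) else 0
          rw [hodd i x hx]
          simp only [Left.neg_pos_iff]
        have e2 : ind (fun x => f i x < 0) (cp x) = ind (fun x => 0 < f i x) x := by
          show (if f i (cp x) < 0 then (1 : ℝ) else 0) = if 0 < f i x then (1 : ℝ) else 0
          rw [hodd i x hx]
          simp only [Left.neg_neg_iff]
        rw [e1, e2]
        ring) δ hδ0
  have hfr : (fr p : ℝ) ≤ v := by
    refine le_trans ?_ hN
    have h4 : Fintype.card ({k : κ // k ≠ k0} ⊕ ι) = Fintype.card κ - 1 + Fintype.card ι := by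
      rw [Fintype.card_sum, Fintype.card_subtype_compl, Fintype.card_subtype_eq]
    have h5 : (fr p : ℝ) ≤ ((Fintype.card κ - 1 + Fintype.card ι : ℕ) : ℝ) := by
      rw [← h4]
      exact_mod_cast hp3
    have h6 : 1 ≤ Fintype.card κ := Fintype.card_pos_iff.2 ⟨k0⟩
    rw [Nat.cast_add, Nat.cast_sub h6] at h5
    push_cast at h5
    exact h5
  -- colour classes
  set a : κ → ℝ := fun k => Ex p (ind fun x => c x = k) with ha
  set b : κ → ℝ := fun k => Ex p (ind fun x => c (cp x) = k) with hb
  have hsum : ∀ g : List Bool → κ, ∑ k, Ex p (ind fun x => g x = k) = 1 := by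
    intro g
    have h4 := Ex_sum Finset.univ p (fun k => ind fun x => g x = k)
    rw [← h4, Ex_congr p _ (fun _ => 1), Ex_const]
    intro x _
    unfold ind
    simp
  have hab : ∀ k, k ≠ k0 → |a k - b k| < δ := by
    intro k hk
    have h4 := hp4 (Sum.inl ⟨k, hk⟩)
    have h5 : Ex p (G (Sum.inl ⟨k, hk⟩)) = a k - b k := by
      show Ex p (fun x => ind (fun x => c x = k) x - ind (fun x => c (cp x) = k) x) = a k - b k
      rw [Ex_sub]
    rwa [h5] at h4
  have hab0 : ∀ k, a k - b k ≤ Mc * δ := by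
    intro k
    by_cases hk : k = k0
    · have h4 : a k0 - b k0 = ∑ k ∈ Finset.univ.erase k0, (b k - a k) := by
        have h5 := hsum c
        have h6 := hsum (fun x => c (cp x))
        have h7 := Finset.add_sum_erase Finset.univ a (Finset.mem_univ k0)
        have h8 := Finset.add_sum_erase Finset.univ b (Finset.mem_univ k0)
        rw [Finset.sum_sub_distrib]
        have h9 : ∑ k, a k = 1 := h5
        have h10 : ∑ k, b k = 1 := h6
        linarith
      rw [hk, h4]
      have h5 : ∑ k ∈ Finset.univ.erase k0, (b k - a k) ≤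
          ∑ k ∈ Finset.univ.erase k0, δ := by
        refine Finset.sum_le_sum fun k hk => ?_
        have h6 := hab k (Finset.ne_of_mem_erase hk)
        rw [abs_lt] at h6
        linarith [h6.1]
      refine h5.trans ?_
      rw [Finset.sum_const, nsmul_eq_mul]
      refine mul_le_mul_of_nonneg_right ?_ hδ0.le
      rw [hMc]
      exact_mod_cast (Finset.card_le_card (Finset.subset_univ (Finset.univ.erase k0))).trans
        (le_of_eq Finset.card_univ)
    · have h4 := hab k hk
      rw [abs_lt] at h4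
      nlinarith [h4.2]
  -- a large class
  obtain ⟨k1, hk1⟩ : ∃ k, 1 / Mc ≤ a k := by
    by_contra hcon
    push Not at hcon
    have h4 : ∑ k, a k < ∑ _k : κ, 1 / Mc :=
      Finset.sum_lt_sum_of_nonempty ⟨k0, Finset.mem_univ _⟩ fun k _ => hcon k
    rw [Finset.sum_const, Finset.card_univ, nsmul_eq_mul] at h4
    have h5 : ∑ k, a k = 1 := hsum c
    rw [h5, ← hMc] at h4
    have h6 : Mc * (1 / Mc) = 1 := by field_simp
    linarith
  -- the bad set
  set Bad : List Bool → Prop := fun x => ∃ i, t ≤ |f i x| with hBad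
  have hδ' : 0 < 1 - δ := by linarith
  have hbad : Ex p (ind Bad) ≤ ε / (1 - δ) := by
    have h4 : Ex p (ind Bad) ≤ Ex p (fun x => ∑ i, ind (fun x => t ≤ |f i x|) x) := by
      refine Ex_mono p _ _ hp2 fun x _ => ?_
      by_cases h : Bad x
      · rw [ind_pos h]
        obtain ⟨i, hi⟩ := h
        have h5 : ind (fun x => t ≤ |f i x|) x = 1 := ind_pos hi
        rw [← h5]
        exact Finset.single_le_sum (f := fun i => ind (fun x => t ≤ |f i x|) x)
          (fun i _ => ind_nonneg _ x) (Finset.mem_univ i)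
      · rw [ind_neg h]
        exact Finset.sum_nonneg fun i _ => ind_nonneg _ x
    rw [Ex_sum] at h4
    have h5 : ∑ i, Ex p (ind fun x => t ≤ |f i x|) ≤
        ∑ _i : ι, 4 * Real.exp (-(t ^ 2 / v)) / (1 - δ) := by
      refine Finset.sum_le_sum fun i _ => ?_
      exact tail n p hp1 hp2 (f i) (hlip i) t v δ ht hv hfr hδ1 (hp4 (Sum.inr i))
    refine h4.trans (h5.trans ?_)
    rw [Finset.sum_const, Finset.card_univ, nsmul_eq_mul, ← mul_div_assoc]
    refine div_le_div_of_nonneg_right ?_ hδ'.le
    linarith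
  have hPa : ∀ g : List Bool → κ, Ex p (ind fun x => g x = k1) - ε / (1 - δ) ≤
      Ex p (ind fun x => g x = k1 ∧ ¬ Bad x) := by
    intro g
    have h4 : Ex p (fun x => ind (fun x => g x = k1) x - ind Bad x) ≤
        Ex p (ind fun x => g x = k1 ∧ ¬ Bad x) := by
      refine Ex_mono p _ _ hp2 fun x _ => ?_
      by_cases h5 : g x = k1
      · by_cases h6 : Bad x
        · rw [ind_pos (P := fun x => g x = k1) h5, ind_pos h6]
          linarith [ind_nonneg (fun x => g x = k1 ∧ ¬ Bad x) x]
        · rw [ind_pos (P := fun x => g x = k1) h5, ind_neg h6,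
            ind_pos (P := fun x => g x = k1 ∧ ¬ Bad x) ⟨h5, h6⟩]
          norm_num
      · rw [ind_neg (P := fun x => g x = k1) h5]
        linarith [ind_nonneg Bad x, ind_nonneg (fun x => g x = k1 ∧ ¬ Bad x) x]
    rw [Ex_sub] at h4
    have h5 : Ex p (fun x => ind (fun x => g x = k1) x) = Ex p (ind fun x => g x = k1) := rfl
    have h6 : Ex p (fun x => ind Bad x) = Ex p (ind Bad) := rfl
    rw [h5, h6] at h4
    linarith
  have hA : 1 / Mc - ε / (1 - δ) ≤ Ex p (ind fun x => c x = k1 ∧ ¬ Bad x) := by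
    have := hPa c
    have h4 : a k1 = Ex p (ind fun x => c x = k1) := rfl
    linarith
  have hB : 1 / Mc - Mc * δ - ε / (1 - δ) ≤ Ex p (ind fun x => c (cp x) = k1 ∧ ¬ Bad x) := by
    have := hPa (fun x => c (cp x))
    have h4 : b k1 = Ex p (ind fun x => c (cp x) = k1) := rfl
    have h5 := hab0 k1
    linarith
  by_contra hcon
  have h4 : Ex p (ind fun x => c x = k1 ∧ ¬ Bad x) * Ex p (ind fun x => c (cp x) = k1 ∧ ¬ Bad x) ≤
      Real.exp (-(r ^ 2 / v)) := by
    refine two_set p hp2 _ _ r hr ?_ v hv hfr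
    rintro x y hx hy ⟨hx1, hx2⟩ ⟨hy1, hy2⟩
    by_contra h5
    push Not at h5
    apply hcon
    refine ⟨x, cp y, hx.trans hp1, ?_, ?_, ?_, ?_, ?_⟩
    · rw [cp_length]
      exact hy.trans hp1
    · rw [hx1, hy1]
    · rw [cp_cp]
      exact h5
    · intro i
      by_contra h6
      exact hx2 ⟨i, not_lt.1 h6⟩
    · intro i
      rw [hodd i y (hy.trans hp1), abs_neg]
      by_contra h6
      exact hy2 ⟨i, not_lt.1 h6⟩
  have h5 : (1 / Mc - ε / (1 - δ)) * (1 / Mc - Mc * δ - ε / (1 - δ)) ≤
      Ex p (ind fun x => c x = k1 ∧ ¬ Bad x) * Ex p (ind fun x => c (cp x) = k1 ∧ ¬ Bad x) := by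
    refine mul_le_mul hA hB hδ2.le ?_
    exact Ex_nonneg p _ hp2 (ind_nonneg _)
  linarith

end Pool.Agent.MNS
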