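import Pool.Agent.MNS.LO
import Pool.Agent.MNS.Blk2

/-!
# MNS (MP_73b4f2_co): coverings by intersections of few halfspaces
-/

set_option autoImplicit false

namespace Pool.Agent.MNS

variable {n : ℕ}

theorem ps_sgn (a : Fin n → ℝ) (G : Finset (Fin n)) (X : Fin n → ZMod 2) :
    ps a G X = (∑ j ∈ G, a j) / 2 - (∑ j ∈ G, a j * sgn (X j)) / 2 := by
  unfold ps
  rw [← sub_div, ← Finset.sum_sub_distrib, Finset.sum_div]
  refine Finset.sum_congr rfl fun j _ => ?_
  unfold sgn
  split_ifs <;> ring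

theorem ps_congr (a : Fin n → ℝ) (G : Finset (Fin n)) (X Y : Fin n → ZMod 2)
    (h : ∀ j ∈ G, X j = Y j) : ps a G X = ps a G Y := by
  unfold ps
  exact Finset.sum_congr rfl fun j hj => by rw [h j hj]

theorem ps_split (a : Fin n → ℝ) (G : Finset (Fin n)) (X : Fin n → ZMod 2) :
    ps a Finset.univ X = ps a G X + ps a Gᶜ X := by
  unfold ps
  rw [Finset.sum_add_sum_compl]

open Classical in
/-- Anti-concentration for intervals which are a multiple of the step. -/
theorem count (a : Fin n → ℝ) (G H : Finset (Fin n)) (hHG : H ⊆ G) (μ : ℝ) (hμ0 : 0 ≤ μ)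
    (hH : ∀ j ∈ H, μ ≤ |a j|) (h : ℕ) (hh : μ = 0 ∨ H.card = h) (s : Fin n → ZMod 2) (ξ : ℝ)
    (N : ℕ) :
    (Finset.univ.filter fun X : Fin n → ZMod 2 => ξ < ps a G (X + s) ∧
      ps a G (X + s) ≤ ξ + N * μ).card * 2 ^ h ≤ N * (h.choose (h / 2) * 2 ^ n) := by
  rcases hμ0.eq_or_lt with h0 | h0
  · have h1 : (Finset.univ.filter fun X : Fin n → ZMod 2 => ξ < ps a G (X + s) ∧
        ps a G (X + s) ≤ ξ + N * μ) = ∅ := by
      rw [Finset.filter_eq_empty_iff]
      rintro X _ ⟨h2, h3⟩
      rw [← h0, mul_zero, add_zero] at h3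
      linarith
    rw [h1, Finset.card_empty, zero_mul]
    exact Nat.zero_le _
  · have hc : H.card = h := by
      rcases hh with hh | hh
      · exact absurd hh h0.ne'
      · exact hh
    induction N with
    | zero =>
      have h1 : (Finset.univ.filter fun X : Fin n → ZMod 2 => ξ < ps a G (X + s) ∧
          ps a G (X + s) ≤ ξ + ((0 : ℕ) : ℝ) * μ) = ∅ := by
        rw [Finset.filter_eq_empty_iff]
        rintro X _ ⟨h2, h3⟩
        rw [Nat.cast_zero, zero_mul, add_zero] at h3
        linarith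
      rw [h1, Finset.card_empty, zero_mul]
      exact Nat.zero_le _
    | succ N ih =>
      have h1 : (Finset.univ.filter fun X : Fin n → ZMod 2 => ξ < ps a G (X + s) ∧
          ps a G (X + s) ≤ ξ + ((N + 1 : ℕ) : ℝ) * μ) ⊆
          (Finset.univ.filter fun X : Fin n → ZMod 2 => ξ < ps a G (X + s) ∧
            ps a G (X + s) ≤ ξ + (N : ℝ) * μ) ∪
          (Finset.univ.filter fun X : Fin n → ZMod 2 => ξ + N * μ < ps a G (X + s) ∧
            ps a G (X + s) ≤ ξ + N * μ + μ) := by
        intro X hX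
        rw [Finset.mem_filter] at hX
        rw [Finset.mem_union, Finset.mem_filter, Finset.mem_filter]
        obtain ⟨_, h2, h3⟩ := hX
        push_cast at h3
        by_cases h4 : ps a G (X + s) ≤ ξ + N * μ
        · exact Or.inl ⟨Finset.mem_univ _, h2, h4⟩
        · exact Or.inr ⟨Finset.mem_univ _, not_le.1 h4, by linarith⟩
      have h2 := (Finset.card_le_card h1).trans (Finset.card_union_le _ _)
      have h3 : (Finset.univ.filter fun X : Fin n → ZMod 2 => ξ + N * μ < ps a G (X + s) ∧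
            ps a G (X + s) ≤ ξ + N * μ + μ).card =
          (Finset.univ.filter fun X : Fin n → ZMod 2 => ξ + N * μ < ps a G X ∧
            ps a G X ≤ ξ + N * μ + μ).card := by
        refine Finset.card_bij (fun X _ => X + s) ?_ ?_ ?_
        · intro X hX
          rw [Finset.mem_filter] at hX ⊢
          exact ⟨Finset.mem_univ _, hX.2⟩
        · intro X _ Y _ hXY
          exact add_right_cancel hXY
        · intro Y hY
          refine ⟨Y - s, ?_, by abel⟩
          rw [Finset.mem_filter] at hY ⊢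
          refine ⟨Finset.mem_univ _, ?_⟩
          rw [sub_add_cancel]
          exact hY.2
      have h4 := LO a G H hHG μ h0 hH (ξ + N * μ)
      rw [hc] at h4
      rw [h3] at h2
      calc _ ≤ _ := Nat.mul_le_mul_right (2 ^ h) h2
        _ ≤ N * (h.choose (h / 2) * 2 ^ n) + h.choose (h / 2) * 2 ^ n := by
            rw [add_mul]
            exact add_le_add ih h4
        _ = (N + 1) * (h.choose (h / 2) * 2 ^ n) := by ring

open Classical in
/-- Coverings by intersections of halfspaces, in coordinates. -/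
theorem polyZ {m p : ℕ} {κ : Type} [Fintype κ] [Nonempty κ] (σ : κ → (Fin n → ZMod 2))
    (π : κ → Fin m) (a : Fin m → Fin p → Fin n → ℝ) (θ : Fin m → Fin p → ℝ)
    (hcov : ∀ u : Fin n → ZMod 2, ∃ k, ∀ l, ps (a (π k) l) Finset.univ (u + σ k) ≤ θ (π k) l)
    (g : ℕ) (hg : (p * Fintype.card κ * (Fintype.card κ * p + 4 * p + 2)) ^ 2 ≤ 2 * g) :
    ∃ (k : κ) (Hd : Finset (Fin n)), Hd.card ≤ m * p * (2 * g) ∧
      ∀ T : Fin n → ZMod 2, (∀ j ∈ Hd, T j = 0) → ∃ P Q : Fin n → ZMod 2, P + Q = T ∧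
        (∀ l, ps (a (π k) l) Finset.univ P ≤ θ (π k) l) ∧
        ∀ l, ps (a (π k) l) Finset.univ Q ≤ θ (π k) l := by
  set M := Fintype.card κ with hM
  have hMpos : 0 < M := Fintype.card_pos
  have hhead : ∀ (i : Fin m) (l : Fin p), ∃ (H : Finset (Fin n)) (μ : ℝ), H.card ≤ 2 * g ∧
      0 ≤ μ ∧ (∀ j ∉ H, |a i l j| ≤ μ) ∧ (∀ j ∈ H, μ ≤ |a i l j|) ∧ (μ = 0 ∨ H.card = 2 * g) :=
    fun i l => head (a i l) (2 * g)
  choose H μ hHc hμ0 hμ hHμ hHh using hhead
  set Hd : Finset (Fin n) := Finset.univ.biUnion fun i => Finset.univ.biUnion fun l => H i l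
    with hHd
  have hHsub : ∀ i l, H i l ⊆ Hd := by
    intro i l j hj
    rw [hHd, Finset.mem_biUnion]
    exact ⟨i, Finset.mem_univ _, Finset.mem_biUnion.2 ⟨l, Finset.mem_univ _, hj⟩⟩
  have hHdc : Hd.card ≤ m * p * (2 * g) := by
    refine Finset.card_biUnion_le.trans ?_
    have h1 : ∀ i ∈ (Finset.univ : Finset (Fin m)),
        (Finset.univ.biUnion fun l => H i l).card ≤ p * (2 * g) := by
      intro i _
      refine Finset.card_biUnion_le.trans ?_
      refine (Finset.sum_le_card_nsmul _ _ (2 * g) fun l _ => hHc i l).trans (le_of_eq ?_)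
      rw [Finset.card_univ, Fintype.card_fin, smul_eq_mul]
    refine (Finset.sum_le_card_nsmul _ _ _ h1).trans (le_of_eq ?_)
    rw [Finset.card_univ, Fintype.card_fin, smul_eq_mul, mul_assoc]
  have hsm : ∀ i l j, j ∉ Hd → |a i l j| ≤ μ i l := fun i l j hj =>
    hμ i l j fun h => hj (hHsub i l h)
  -- the balanced vector
  obtain ⟨x, hx⟩ := round01 n (ι := κ × Fin p)
    (fun i j => if j ∈ Hd then 0 else a (π i.1) i.2 j * sgn (σ i.1 j))
    (fun i => μ (π i.1) i.2) (fun i => hμ0 _ _) (by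
      intro i j
      by_cases hj : j ∈ Hd
      · rw [if_pos hj, abs_zero]
        exact hμ0 _ _
      · rw [if_neg hj, abs_mul]
        have h1 : |sgn (σ i.1 j)| = 1 := by
          unfold sgn
          split_ifs <;> simp
        rw [h1, mul_one]
        exact hsm _ _ j hj)
  have hx' : ∀ k l, |∑ j ∈ Hdᶜ, a (π k) l j * sgn ((x + σ k) j)| ≤
      (2 * (M * p) + 1) * μ (π k) l := by
    intro k l
    have h1 := hx (k, l)
    rw [Fintype.card_prod, Fintype.card_fin, ← hM] at h1
    push_cast at h1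
    refine le_trans (le_of_eq ?_) h1
    congr 1
    rw [← Finset.sum_add_sum_compl Hd (fun j =>
      (if j ∈ Hd then 0 else a (π (k, l).1) (k, l).2 j * sgn (σ (k, l).1 j)) * sgn (x j))]
    have h2 : ∑ j ∈ Hd, (if j ∈ Hd then 0 else a (π (k, l).1) (k, l).2 j *
        sgn (σ (k, l).1 j)) * sgn (x j) = 0 := by
      refine Finset.sum_eq_zero fun j hj => ?_
      rw [if_pos hj, zero_mul]
    rw [h2, zero_add]
    refine Finset.sum_congr rfl fun j hj => ?_
    rw [if_neg (Finset.mem_compl.1 hj)]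
    show a (π k) l j * sgn (x j + σ k j) = a (π k) l j * sgn (σ k j) * sgn (x j)
    rw [sgn_add]
    ring
  -- the colouring
  choose c hc using fun X : Fin n → ZMod 2 => hcov (fun j => if j ∈ Hd then X j else x j)
  obtain ⟨k, hk⟩ : ∃ k, 2 ^ n ≤ M * (Finset.univ.filter fun X => c X = k).card := by
    by_contra hcon
    push Not at hcon
    have h1 : ∑ k, (Finset.univ.filter fun X => c X = k).card = 2 ^ n := by
      rw [← Finset.card_eq_sum_card_fiberwise (f := c) (s := Finset.univ) (t := Finset.univ)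
        (fun _ _ => Finset.mem_coe.2 (Finset.mem_univ _)), Finset.card_univ, Fintype.card_fun,
        ZMod.card, Fintype.card_fin]
    have h2 : ∑ k, M * (Finset.univ.filter fun X => c X = k).card < ∑ _k : κ, 2 ^ n :=
      Finset.sum_lt_sum_of_nonempty Finset.univ_nonempty fun k _ => hcon k
    rw [← Finset.mul_sum, h1, Finset.sum_const, Finset.card_univ, ← hM, smul_eq_mul] at h2
    exact lt_irrefl _ h2
  set ξ : Fin p → ℝ := fun l => θ (π k) l - (∑ j ∈ Hdᶜ, a (π k) l j) / 2 with hξ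
  set N1 := M * p + 4 * p + 2 with hN1
  set Bad : Fin p → Finset (Fin n → ZMod 2) := fun l => Finset.univ.filter fun X =>
    ξ l - (4 * p + 1) * μ (π k) l < ps (a (π k) l) Hd (X + σ k) ∧
      ps (a (π k) l) Hd (X + σ k) ≤ ξ l - (4 * p + 1) * μ (π k) l + N1 * μ (π k) l with hBad
  have hBadc : ∀ l, (Bad l).card * 2 ^ (2 * g) ≤ N1 * ((2 * g).choose g * 2 ^ n) := by
    intro l
    have h1 := count (a (π k) l) Hd (H (π k) l) (hHsub _ _) (μ (π k) l) (hμ0 _ _) (hHμ _ _)
      (2 * g) (hHh _ _) (σ k) (ξ l - (4 * p + 1) * μ (π k) l) N1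
    rwa [Nat.mul_div_cancel_left g (by norm_num : 0 < 2)] at h1
  -- a vector of the colour `k` which is not bad
  obtain ⟨X, hXk, hXB⟩ : ∃ X, c X = k ∧ ∀ l, X ∉ Bad l := by
    by_contra hcon
    push Not at hcon
    have h1 : (Finset.univ.filter fun X => c X = k) ⊆ Finset.univ.biUnion Bad := by
      intro X hX
      obtain ⟨l, hl⟩ := hcon X (Finset.mem_filter.1 hX).2
      exact Finset.mem_biUnion.2 ⟨l, Finset.mem_univ _, hl⟩
    have h2 := (Finset.card_le_card h1).trans Finset.card_biUnion_le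
    have h3 : (∑ l, (Bad l).card) * 2 ^ (2 * g) ≤ p * (N1 * ((2 * g).choose g * 2 ^ n)) := by
      rw [Finset.sum_mul]
      refine (Finset.sum_le_card_nsmul _ _ _ fun l _ => hBadc l).trans (le_of_eq ?_)
      rw [Finset.card_univ, Fintype.card_fin, smul_eq_mul]
    have h4 : 2 ^ n * 2 ^ (2 * g) ≤ (p * M * N1 * (2 * g).choose g) * 2 ^ n := by
      calc 2 ^ n * 2 ^ (2 * g) ≤ M * (Finset.univ.filter fun X => c X = k).card * 2 ^ (2 * g) :=
            Nat.mul_le_mul_right _ hk
        _ ≤ M * (∑ l, (Bad l).card) * 2 ^ (2 * g) :=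
            Nat.mul_le_mul_right _ (Nat.mul_le_mul_left _ h2)
        _ = M * ((∑ l, (Bad l).card) * 2 ^ (2 * g)) := by ring
        _ ≤ M * (p * (N1 * ((2 * g).choose g * 2 ^ n))) := Nat.mul_le_mul_left _ h3
        _ = (p * M * N1 * (2 * g).choose g) * 2 ^ n := by ring
    have h5 := central_lt g (p * M * N1) hg
    have h6 : 0 < 2 ^ n := by positivity
    have h7 : (p * M * N1 * (2 * g).choose g) * 2 ^ n < 2 ^ (2 * g) * 2 ^ n :=
      Nat.mul_lt_mul_of_pos_right h5 h6
    rw [mul_comm (2 ^ n) (2 ^ (2 * g))] at h4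
    omega
  -- the slack
  have hslack : ∀ l, ps (a (π k) l) Hd (X + σ k) ≤ ξ l - (4 * p + 1) * μ (π k) l := by
    intro l
    have h1 := hc X l
    rw [hXk] at h1
    rw [ps_split _ Hd] at h1
    have h2 : ps (a (π k) l) Hd ((fun j => if j ∈ Hd then X j else x j) + σ k) =
        ps (a (π k) l) Hd (X + σ k) := by
      refine ps_congr _ _ _ _ fun j hj => ?_
      show (if j ∈ Hd then X j else x j) + σ k j = X j + σ k j
      rw [if_pos hj]
    have h3 : ps (a (π k) l) Hdᶜ ((fun j => if j ∈ Hd then X j else x j) + σ k) =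
        ps (a (π k) l) Hdᶜ (x + σ k) := by
      refine ps_congr _ _ _ _ fun j hj => ?_
      show (if j ∈ Hd then X j else x j) + σ k j = x j + σ k j
      rw [if_neg (Finset.mem_compl.1 hj)]
    rw [h2, h3, ps_sgn _ Hdᶜ] at h1
    have h4 := hx' k l
    rw [abs_le] at h4
    by_contra hcon
    push Not at hcon
    refine hXB l (Finset.mem_filter.2 ⟨Finset.mem_univ _, hcon, ?_⟩)
    have h5 : ξ l = θ (π k) l - (∑ j ∈ Hdᶜ, a (π k) l j) / 2 := rfl
    have h6 := hμ0 (π k) l
    rw [h5, hN1]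
    push_cast
    linarith [h4.2]
  refine ⟨k, Hd, hHdc, fun T hT => ?_⟩
  -- balance on `T` and outside
  obtain ⟨y, hy⟩ := round01 n (ι := Fin p × Bool)
    (fun i j => if j ∈ Hd then 0 else if decide (T j ≠ 0) = i.2 then a (π k) i.1 j else 0)
    (fun i => μ (π k) i.1) (fun i => hμ0 _ _) (by
      intro i j
      by_cases hj : j ∈ Hd
      · rw [if_pos hj, abs_zero]
        exact hμ0 _ _
      · rw [if_neg hj]
        split_ifs
        · exact hsm _ _ j hj
        · rw [abs_zero]
          exact hμ0 _ _)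
  have hy' : ∀ l b, |∑ j ∈ Hdᶜ, (if decide (T j ≠ 0) = b then a (π k) l j * sgn (y j) else 0)| ≤
      (4 * p + 1) * μ (π k) l := by
    intro l b
    have h1 := hy (l, b)
    rw [Fintype.card_prod, Fintype.card_fin, Fintype.card_bool] at h1
    push_cast at h1
    have e1 : (2 * ((p : ℝ) * 2) + 1) * μ (π k) l = (4 * p + 1) * μ (π k) l := by ring
    rw [← e1]
    refine le_trans (le_of_eq ?_) h1
    congr 1
    rw [← Finset.sum_add_sum_compl Hd (fun j => (if j ∈ Hd then 0 else
      if decide (T j ≠ 0) = (l, b).2 then a (π k) (l, b).1 j else 0) * sgn (y j))]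
    have h2 : ∑ j ∈ Hd, (if j ∈ Hd then 0 else
      if decide (T j ≠ 0) = (l, b).2 then a (π k) (l, b).1 j else 0) * sgn (y j) = 0 := by
      refine Finset.sum_eq_zero fun j hj => ?_
      rw [if_pos hj, zero_mul]
    rw [h2, zero_add]
    refine Finset.sum_congr rfl fun j hj => ?_
    rw [if_neg (Finset.mem_compl.1 hj)]
    show _ = (if decide (T j ≠ 0) = b then a (π k) l j else 0) * sgn (y j)
    split_ifs
    · rfl
    · rw [zero_mul]
  set P : Fin n → ZMod 2 := fun j => if j ∈ Hd then (X + σ k) j else y j with hP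
  have hbd : ∀ l, ∀ W : Fin n → ZMod 2, (∀ j ∈ Hd, W j = (X + σ k) j) →
      |∑ j ∈ Hdᶜ, a (π k) l j * sgn (W j)| ≤ 2 * ((4 * p + 1) * μ (π k) l) →
      ps (a (π k) l) Finset.univ W ≤ θ (π k) l := by
    intro l W hW1 hW2
    rw [ps_split _ Hd, ps_congr _ Hd W (X + σ k) hW1, ps_sgn _ Hdᶜ]
    have h1 := hslack l
    have h2 : ξ l = θ (π k) l - (∑ j ∈ Hdᶜ, a (π k) l j) / 2 := rfl
    rw [abs_le] at hW2
    rw [h2] at h1
    linarith [hW2.1]
  refine ⟨P, P + T, ?_, fun l => hbd l P ?_ ?_, fun l => hbd l (P + T) ?_ ?_⟩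
  · funext j
    show P j + (P j + T j) = T j
    have h4 : ∀ p t : ZMod 2, p + (p + t) = t := by decide
    exact h4 _ _
  · intro j hj
    exact if_pos hj
  · have h1 := hy' l true
    have h2 := hy' l false
    have h3 : ∑ j ∈ Hdᶜ, a (π k) l j * sgn (P j) =
        ∑ j ∈ Hdᶜ, (if decide (T j ≠ 0) = true then a (π k) l j * sgn (y j) else 0) +
        ∑ j ∈ Hdᶜ, (if decide (T j ≠ 0) = false then a (π k) l j * sgn (y j) else 0) := by
      rw [← Finset.sum_add_distrib]
      refine Finset.sum_congr rfl fun j hj => ?_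
      have h4 : P j = y j := if_neg (Finset.mem_compl.1 hj)
      rw [h4]
      cases decide (T j ≠ 0) <;> simp
    rw [h3]
    refine (abs_add_le _ _).trans ?_
    linarith
  · intro j hj
    show P j + T j = (X + σ k) j
    rw [hT j hj, add_zero]
    exact if_pos hj
  · have h1 := hy' l true
    have h2 := hy' l false
    have h3 : ∑ j ∈ Hdᶜ, a (π k) l j * sgn ((P + T) j) =
        -∑ j ∈ Hdᶜ, (if decide (T j ≠ 0) = true then a (π k) l j * sgn (y j) else 0) +
        ∑ j ∈ Hdᶜ, (if decide (T j ≠ 0) = false then a (π k) l j * sgn (y j) else 0) := by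
      rw [← Finset.sum_neg_distrib, ← Finset.sum_add_distrib]
      refine Finset.sum_congr rfl fun j hj => ?_
      have h4 : P j = y j := if_neg (Finset.mem_compl.1 hj)
      show a (π k) l j * sgn (P j + T j) = _
      rw [h4, sgn_add]
      by_cases h5 : T j = 0
      · have h6 : sgn (T j) = 1 := by
          unfold sgn
          rw [if_pos h5]
        rw [h6]
        simp [h5]
      · have h6 : sgn (T j) = -1 := by
          unfold sgn
          rw [if_neg h5]
        rw [h6]
        simp [h5]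
    rw [h3]
    refine (abs_add_le _ _).trans ?_
    rw [abs_neg]
    linarith

/-- The subspace of the vectors which vanish on a set of coordinates. -/
theorem exists_sub0 (E : Finset (Fin n)) :
    ∃ W : Submodule (ZMod 2) (Fin n → ZMod 2), n ≤ Module.finrank (ZMod 2) W + E.card ∧
      ∀ t ∈ W, ∀ j ∈ E, t j = 0 := by
  classical
  obtain ⟨W, h1, h2⟩ := exists_sub (q := 0) E (fun _ => ∅)
  exact ⟨W, h1, fun t ht => (h2 t ht).1⟩

end Pool.Agent.MNS
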