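import Pool.Agent.MNS.Fun

/-!
# MNS (MP_73b4f2_co): simultaneous rounding of linear forms
-/

set_option autoImplicit false

namespace Pool.Agent.MNS

/-- the entries of a list as a function -/
noncomputable def ent (n : ℕ) (p : List ℝ) : Fin n → ℝ := fun j => p.getD j 0

theorem ent_zero (n : ℕ) (a : ℝ) (p : List ℝ) : ent (n + 1) (a :: p) 0 = a := rfl

theorem ent_succ (n : ℕ) (a : ℝ) (p : List ℝ) (j : Fin n) :
    ent (n + 1) (a :: p) j.succ = ent n p j := rfl

theorem ent_map : ∀ (n : ℕ) (p : List ℝ), p.length = n → ∀ j,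
    ent n (p.map (fun a => 1 - a)) j = 1 - ent n p j := by
  intro n
  induction n with
  | zero =>
    intro p _ j
    exact j.elim0
  | succ n ih =>
    intro p hp j
    cases p with
    | nil => simp at hp
    | cons a p =>
      rw [List.map_cons]
      refine Fin.cases ?_ (fun j => ?_) j
      · rw [ent_zero, ent_zero]
      · rw [ent_succ, ent_succ]
        exact ih p (by simpa using hp) j

theorem ent_d1 : ∀ (n : ℕ) (p q : List ℝ), p.length = n → q.length = n →
    d1 p q = ∑ j, |ent n p j - ent n q j| := by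
  intro n
  induction n with
  | zero =>
    intro p q hp hq
    rw [List.length_eq_zero_iff] at hp hq
    rw [hp, hq]
    simp [d1]
  | succ n ih =>
    intro p q hp hq
    cases p with
    | nil => simp at hp
    | cons a p =>
      cases q with
      | nil => simp at hq
      | cons b q =>
        rw [Fin.sum_univ_succ]
        simp only [ent_zero, ent_succ, d1]
        rw [ih p q (by simpa using hp) (by simpa using hq)]

theorem ent_Pr : ∀ (n : ℕ) (p : List ℝ), p.length = n → Pr p → ∀ j,
    0 ≤ ent n p j ∧ ent n p j ≤ 1 := by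
  intro n
  induction n with
  | zero =>
    intro p _ _ j
    exact j.elim0
  | succ n ih =>
    intro p hp h j
    cases p with
    | nil => simp at hp
    | cons a p =>
      rw [Pr_cons] at h
      refine Fin.cases ?_ (fun j => ?_) j
      · exact h.1
      · exact ih p (by simpa using hp) h.2 j

open Classical in
theorem ent_fr : ∀ (n : ℕ) (p : List ℝ), p.length = n →
    (Finset.univ.filter fun j => ¬ (ent n p j = 0 ∨ ent n p j = 1)).card = fr p := by
  intro n
  induction n with
  | zero =>
    intro p hp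
    rw [List.length_eq_zero_iff] at hp
    rw [hp]
    simp [fr]
  | succ n ih =>
    intro p hp
    cases p with
    | nil => simp at hp
    | cons a p =>
      rw [Finset.card_filter, Fin.sum_univ_succ]
      simp only [ent_zero, ent_succ, fr]
      rw [← ih p (by simpa using hp), Finset.card_filter]
      congr 1
      by_cases h : a = 0 ∨ a = 1
      · rw [if_neg (not_not.2 h), if_pos h]
      · rw [if_pos h, if_neg h]

open Classical in
/-- Simultaneous approximate zeros of linear forms. -/
theorem round (n : ℕ) {ι : Type} [Fintype ι] (g : ι → Fin n → ℝ) (δ : ℝ) (hδ : 0 < δ) :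
    ∃ P : Fin n → ℝ, (∀ j, 0 ≤ P j ∧ P j ≤ 1) ∧
      (Finset.univ.filter fun j => ¬ (P j = 0 ∨ P j = 1)).card ≤ Fintype.card ι ∧
      ∀ i, |∑ j, g i j * (1 - 2 * P j)| < δ := by
  set e := Fintype.equivFin ι
  set C : ℝ := ∑ i, ∑ j, |g i j| with hC
  obtain ⟨p, h1, h2, h3, h4⟩ := approx n (Fintype.card ι)
    (fun i p => ∑ j, g (e.symm i) j * (1 - 2 * ent n p j)) (2 * C)
    (by
      intro i p hp _
      rw [← Finset.sum_neg_distrib]
      refine Finset.sum_congr rfl fun j _ => ?_
      rw [ent_map n p hp]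
      ring)
    (by
      intro i p q hp hq _ _
      rw [← Finset.sum_sub_distrib, ent_d1 n p q hp hq, Finset.mul_sum]
      refine (Finset.abs_sum_le_sum_abs _ _).trans (Finset.sum_le_sum fun j _ => ?_)
      have e1 : g (e.symm i) j * (1 - 2 * ent n p j) - g (e.symm i) j * (1 - 2 * ent n q j) =
        -(2 * g (e.symm i) j) * (ent n p j - ent n q j) := by ring
      rw [e1, abs_mul, abs_neg, abs_mul, abs_two]
      refine mul_le_mul_of_nonneg_right ?_ (abs_nonneg _)
      refine mul_le_mul_of_nonneg_left ?_ zero_le_two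
      refine (Finset.single_le_sum (f := fun j => |g (e.symm i) j|)
        (fun j _ => abs_nonneg _) (Finset.mem_univ j)).trans ?_
      exact Finset.single_le_sum (f := fun i => ∑ j, |g i j|)
        (fun i _ => Finset.sum_nonneg fun j _ => abs_nonneg _) (Finset.mem_univ (e.symm i)))
    δ hδ
  refine ⟨ent n p, ent_Pr n p h1 h2, ?_, fun i => ?_⟩
  · rw [ent_fr n p h1]
    exact h3
  · have := h4 (e i)
    simp only [e.symm_apply_apply] at this
    exact this

/-- the sign of a coordinate -/
noncomputable def sgn (x : ZMod 2) : ℝ := if x = 0 then 1 else -1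

theorem sgn_add (x y : ZMod 2) : sgn (x + y) = sgn x * sgn y := by
  rcases zcase' x with h | h <;> rcases zcase' y with h' | h' <;> rw [h, h'] <;> unfold sgn
  · simp
  · simp
  · simp
  · have : (1 : ZMod 2) + 1 = 0 := by decide
    rw [this]
    simp
where
  zcase' (p : ZMod 2) : p = 0 ∨ p = 1 := by
    revert p
    decide

theorem exists_min_pos {ι : Type} [Fintype ι] (μ : ι → ℝ) :
    ∃ δ : ℝ, 0 < δ ∧ ∀ i, 0 < μ i → δ ≤ μ i := by
  classical
  by_cases h : (Finset.univ.filter fun i => 0 < μ i).Nonempty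
  · obtain ⟨i, hi, hmin⟩ := Finset.exists_min_image _ μ h
    exact ⟨μ i, (Finset.mem_filter.1 hi).2, fun i' hi' =>
      hmin i' (Finset.mem_filter.2 ⟨Finset.mem_univ _, hi'⟩)⟩
  · refine ⟨1, one_pos, fun i hi => ?_⟩
    exact absurd ⟨i, Finset.mem_filter.2 ⟨Finset.mem_univ _, hi⟩⟩ h

open Classical in
/-- Simultaneous balancing of linear forms with small coefficients. -/
theorem round01 (n : ℕ) {ι : Type} [Fintype ι] (g : ι → Fin n → ℝ) (μ : ι → ℝ)
    (hμ0 : ∀ i, 0 ≤ μ i) (hμ : ∀ i j, |g i j| ≤ μ i) :
    ∃ x : Fin n → ZMod 2, ∀ i, |∑ j, g i j * sgn (x j)| ≤ (2 * Fintype.card ι + 1) * μ i := by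
  obtain ⟨δ, hδ, hδμ⟩ := exists_min_pos μ
  obtain ⟨P, hP, hfr, hF⟩ := round n g δ hδ
  refine ⟨fun j => if P j = 1 then 1 else 0, fun i => ?_⟩
  set x : Fin n → ZMod 2 := fun j => if P j = 1 then 1 else 0 with hx
  set Fr := Finset.univ.filter fun j => ¬ (P j = 0 ∨ P j = 1) with hFr
  -- the difference
  have h1 : ∑ j, g i j * sgn (x j) = ∑ j, g i j * (1 - 2 * P j) +
      ∑ j ∈ Fr, g i j * (sgn (x j) - (1 - 2 * P j)) := by
    have h2 : ∑ j ∈ Fr, g i j * (sgn (x j) - (1 - 2 * P j)) =
        ∑ j, g i j * (sgn (x j) - (1 - 2 * P j)) := by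
      refine Finset.sum_subset (Finset.subset_univ _) fun j _ hj => ?_
      have h3 : P j = 0 ∨ P j = 1 := by
        by_contra h4
        exact hj (Finset.mem_filter.2 ⟨Finset.mem_univ _, h4⟩)
      have h4 : sgn (x j) = 1 - 2 * P j := by
        rcases h3 with h3 | h3
        · have h5 : x j = 0 := by
            simp only [hx]
            rw [if_neg (by rw [h3]; norm_num)]
          rw [h5, h3]
          unfold sgn
          simp
        · have h5 : x j = 1 := by
            simp only [hx]
            rw [if_pos h3]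
          rw [h5, h3]
          unfold sgn
          rw [if_neg (by decide)]
          norm_num
      rw [h4, sub_self, mul_zero]
    rw [h2, ← Finset.sum_add_distrib]
    exact Finset.sum_congr rfl fun j _ => by ring
  have h2 : |∑ j ∈ Fr, g i j * (sgn (x j) - (1 - 2 * P j))| ≤ Fintype.card ι * (2 * μ i) := by
    refine (Finset.abs_sum_le_sum_abs _ _).trans ?_
    have h3 : ∀ j ∈ Fr, |g i j * (sgn (x j) - (1 - 2 * P j))| ≤ 2 * μ i := by
      intro j _
      rw [abs_mul, mul_comm]
      refine mul_le_mul ?_ (hμ i j) (abs_nonneg _) zero_le_two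
      have h4 := hP j
      unfold sgn
      rw [abs_le]
      split_ifs <;> constructor <;> linarith [h4.1, h4.2]
    refine (Finset.sum_le_card_nsmul _ _ _ h3).trans ?_
    rw [nsmul_eq_mul]
    refine mul_le_mul_of_nonneg_right ?_ (by linarith [hμ0 i])
    exact_mod_cast hfr
  rcases (hμ0 i).eq_or_lt with h0 | h0
  · have h3 : ∑ j, g i j * sgn (x j) = 0 := by
      refine Finset.sum_eq_zero fun j _ => ?_
      have h4 := hμ i j
      rw [← h0] at h4
      have h5 : g i j = 0 := abs_eq_zero.1 (le_antisymm h4 (abs_nonneg _))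
      rw [h5, zero_mul]
    rw [h3, ← h0, abs_zero, mul_zero]
  · have h3 := hF i
    have h4 := hδμ i h0
    rw [h1]
    have h5 := abs_add_le (∑ j, g i j * (1 - 2 * P j))
      (∑ j ∈ Fr, g i j * (sgn (x j) - (1 - 2 * P j)))
    linarith

end Pool.Agent.MNS
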