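import Pool.Agent.MNS.Grid
import Pool.Agent.MNS.Conc

/-!
# MNS (MP_73b4f2_co): approximate zeros of odd functions on the skeleton of the cube
-/

set_option autoImplicit false

namespace Pool.Agent.MNS

/-- the centre of a cell -/
noncomputable def pt (M : ℕ) (e : List ℕ) : List ℝ := e.map (fun k : ℕ => (k : ℝ) / (2 * M))

theorem pt_cons (M k : ℕ) (e : List ℕ) : pt M (k :: e) = ((k : ℝ) / (2 * M)) :: pt M e := rfl

theorem pt_length (M : ℕ) (e : List ℕ) : (pt M e).length = e.length := by
  unfold pt
  rw [List.length_map]

theorem pt_Pr {M : ℕ} (hM : 0 < M) (e : List ℕ) (he : ∀ k ∈ e, k ≤ 2 * M) : Pr (pt M e) := by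
  intro a ha
  unfold pt at ha
  rw [List.mem_map] at ha
  obtain ⟨k, hk, rfl⟩ := ha
  have h1 := he k hk
  have h2 : (0 : ℝ) < 2 * M := by positivity
  refine ⟨by positivity, ?_⟩
  rw [div_le_one h2]
  exact_mod_cast h1

theorem pt_fr {M : ℕ} (hM : 0 < M) (e : List ℕ) : fr (pt M e) ≤ nf M e := by
  induction e with
  | nil => simp [pt, fr, nf]
  | cons k z ih =>
    rw [pt_cons, nf_cons]
    simp only [fr]
    have h2 : (2 * (M : ℝ)) ≠ 0 := by positivity
    by_cases hk : k ≠ 0 ∧ k ≠ 2 * M
    · rw [if_pos hk]
      split_ifs <;> omega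
    · rw [if_neg hk, if_pos]
      · omega
      · by_cases h0 : k = 0
        · left
          rw [h0]
          simp
        · right
          have h3 : k = 2 * M := by
            by_contra h4
            exact hk ⟨h0, h4⟩
          rw [h3]
          push_cast
          exact div_self h2

theorem pt_nv {M : ℕ} (hM : 0 < M) (e : List ℕ) (he : ∀ k ∈ e, k ≤ 2 * M) :
    pt M (nv M e) = (pt M e).map (fun a => 1 - a) := by
  induction e with
  | nil => rfl
  | cons k z ih =>
    rw [List.forall_mem_cons] at he
    have h1 : nv M (k :: z) = (2 * M - k) :: nv M z := rfl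
    rw [h1, pt_cons, pt_cons, List.map_cons, ih he.2]
    congr 1
    have h2 : (2 * (M : ℝ)) ≠ 0 := by positivity
    rw [Nat.cast_sub he.1, sub_div]
    push_cast
    rw [div_self h2]

theorem pt_d1 {M : ℕ} (hM : 0 < M) {e' e : List ℕ} (h : Sb e' e) :
    d1 (pt M e') (pt M e) ≤ nf M e * (1 / (2 * M)) := by
  unfold Sb at h
  induction h with
  | nil => simp [pt, d1, nf]
  | @cons a b l1 l2 hr _ ih =>
    rw [pt_cons, pt_cons, nf_cons]
    simp only [d1]
    have h2 : (0 : ℝ) < 2 * M := by positivity
    have h3 : |(a : ℝ) / (2 * M) - b / (2 * M)| ≤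
        ((if b ≠ 0 ∧ b ≠ 2 * M then 1 else 0 : ℕ) : ℝ) * (1 / (2 * M)) := by
      rcases hr with hr | ⟨hb, hr⟩
      · rw [hr, sub_self, abs_zero]
        positivity
      · rw [if_pos (by omega)]
        have h4 : (a : ℝ) / (2 * M) - b / (2 * M) = ((a : ℝ) - b) * (1 / (2 * M)) := by ring
        rw [h4, abs_mul, abs_of_pos (show (0 : ℝ) < 1 / (2 * M) by positivity)]
        refine mul_le_mul_of_nonneg_right ?_ (by positivity)
        rcases hr with hr | hr
        · rw [← hr]
          push_cast
          rw [abs_le]
          constructor <;> linarith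
        · rw [hr]
          push_cast
          rw [abs_le]
          constructor <;> linarith
    push_cast at h3 ⊢
    linarith

open Classical in
/-- an index with the property `Q` -/
noncomputable def sel {m : ℕ} (i0 : Fin m) (Q : Fin m → Prop) : Fin m :=
  if h : ∃ i, Q i then Classical.choose h else i0

theorem sel_spec {m : ℕ} (i0 : Fin m) (Q : Fin m → Prop) (h : ∃ i, Q i) : Q (sel i0 Q) := by
  unfold sel
  rw [dif_pos h]
  exact Classical.choose_spec h

/-- Approximate zeros on the `m`-skeleton of the cube. -/
theorem approx (n m : ℕ) (F : Fin m → List ℝ → ℝ) (C : ℝ)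
    (hodd : ∀ i (p : List ℝ), p.length = n → Pr p → F i (p.map (fun a => 1 - a)) = -F i p)
    (hlip : ∀ i (p q : List ℝ), p.length = n → q.length = n → Pr p → Pr q →
      |F i p - F i q| ≤ C * d1 p q)
    (δ : ℝ) (hδ : 0 < δ) : ∃ p : List ℝ, p.length = n ∧ Pr p ∧ fr p ≤ m ∧ ∀ i, |F i p| < δ := by
  by_contra hcon
  have hcon' : ∀ p : List ℝ, p.length = n → Pr p → fr p ≤ m → ∃ i, δ ≤ |F i p| := by
    intro p h1 h2 h3
    by_contra h4
    push Not at h4
    exact hcon ⟨p, h1, h2, h3, h4⟩
  -- there is at least one function
  have hm : 0 < m := by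
    rcases Nat.eq_zero_or_pos m with h | h
    · exfalso
      subst h
      have h1 : fr (List.replicate n (0 : ℝ)) = 0 := by
        induction n with
        | zero => rfl
        | succ n _ =>
          have : ∀ k : ℕ, fr (List.replicate k (0 : ℝ)) = 0 := by
            intro k
            induction k with
            | zero => rfl
            | succ k ihk =>
              rw [List.replicate_succ]
              simp only [fr]
              rw [ihk]
              simp
          exact this _
      obtain ⟨i, _⟩ := hcon' (List.replicate n 0) (by simp) (by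
        intro a ha
        rw [List.mem_replicate] at ha
        rw [ha.2]
        exact ⟨le_refl _, zero_le_one⟩) h1.le
      exact i.elim0
    · exact h
  -- the mesh
  obtain ⟨M, hM⟩ := exists_nat_gt (max 1 (|C| * m / δ))
  have hM1 : (1 : ℝ) < M := lt_of_le_of_lt (le_max_left _ _) hM
  have hM0 : 0 < M := by
    have : (0 : ℝ) < M := by linarith
    exact_mod_cast this
  have hM2 : |C| * m / δ < M := lt_of_le_of_lt (le_max_right _ _) hM
  have hMr : (0 : ℝ) < M := by exact_mod_cast hM0
  have hstep : |C| * (m * (1 / (2 * M))) < δ := by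
    rw [div_lt_iff₀ hδ] at hM2
    have h1 : |C| * (m * (1 / (2 * (M : ℝ)))) = (|C| * m) / (2 * M) := by ring
    rw [h1, div_lt_iff₀ (by positivity)]
    nlinarith
  set i0 : Fin m := ⟨0, hm⟩
  set sl : List ℕ → Fin m := fun e => sel i0 (fun i => δ ≤ |F i (pt M e)|) with hsl
  set lam : List ℕ → Fin m × Bool := fun e => (sl e, decide (0 < F (sl e) (pt M e))) with hlam
  have hbig : ∀ e, Rg M n m e → δ ≤ |F (sl e) (pt M e)| := by
    intro e he
    exact sel_spec i0 (fun i => δ ≤ |F i (pt M e)|)
      (hcon' (pt M e) (by rw [pt_length]; exact he.1) (pt_Pr hM0 e he.2.1)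
        ((pt_fr hM0 e).trans he.2.2))
  refine tucker M n m lam ?_ ?_
  · intro e he
    have hp : (pt M e).length = n := by rw [pt_length]; exact he.1
    have hP := pt_Pr hM0 e he.2.1
    have h1 : ∀ i, F i (pt M (nv M e)) = -F i (pt M e) := by
      intro i
      rw [pt_nv hM0 e he.2.1, hodd i _ hp hP]
    have h2 : sl (nv M e) = sl e := by
      show sel i0 (fun i => δ ≤ |F i (pt M (nv M e))|) = sel i0 (fun i => δ ≤ |F i (pt M e)|)
      congr 1
      funext i
      rw [h1, abs_neg]
    show (sl (nv M e), decide (0 < F (sl (nv M e)) (pt M (nv M e)))) =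
      (sl e, !decide (0 < F (sl e) (pt M e)))
    rw [h2, h1]
    refine Prod.ext rfl ?_
    show decide (0 < -F (sl e) (pt M e)) = !decide (0 < F (sl e) (pt M e))
    have h3 := hbig e he
    rw [← decide_not]
    refine decide_eq_decide.2 ?_
    constructor
    · intro h4 h5
      linarith
    · intro h4
      push Not at h4
      rcases h4.eq_or_lt with h5 | h5
      · rw [h5, abs_zero] at h3
        linarith
      · linarith
  · intro e e' he hs heq
    have he' : Rg M n m e' := by
      refine ⟨?_, ?_, ?_⟩
      · rw [List.Forall₂.length_eq hs]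
        exact he.1
      · have h2 := he.2.1
        clear heq he
        unfold Sb at hs
        induction hs with
        | nil => simp
        | cons hr _ ih =>
          rw [List.forall_mem_cons] at h2 ⊢
          refine ⟨?_, ih h2.2⟩
          have h3 := h2.1
          unfold Rc at hr
          omega
      · have h2 : nf M e' ≤ nf M e := by
          clear heq he
          unfold Sb at hs
          induction hs with
          | nil => exact le_refl _
          | @cons a b l1 l2 hr _ ih =>
            rw [nf_cons, nf_cons]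
            have h3 : (if a ≠ 0 ∧ a ≠ 2 * M then 1 else 0) ≤
                (if b ≠ 0 ∧ b ≠ 2 * M then 1 else 0) := by
              unfold Rc at hr
              split_ifs <;> omega
            omega
        exact h2.trans he.2.2
    have h1 : sl e' = sl e := congrArg Prod.fst heq
    have h2 : decide (0 < F (sl e') (pt M e')) = !decide (0 < F (sl e) (pt M e)) :=
      congrArg Prod.snd heq
    have h3 := hbig e he
    have h4 := hbig e' he'
    rw [h1] at h2 h4
    have h5 := hlip (sl e) (pt M e') (pt M e) (by rw [pt_length]; exact he'.1)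
      (by rw [pt_length]; exact he.1) (pt_Pr hM0 e' he'.2.1) (pt_Pr hM0 e he.2.1)
    have h6 : C * d1 (pt M e') (pt M e) ≤ |C| * (m * (1 / (2 * M))) := by
      have h7 := pt_d1 hM0 hs
      have h8 : (nf M e : ℝ) ≤ m := by exact_mod_cast he.2.2
      have h9 : (nf M e : ℝ) * (1 / (2 * M)) ≤ m * (1 / (2 * M)) :=
        mul_le_mul_of_nonneg_right h8 (by positivity)
      calc C * d1 (pt M e') (pt M e) ≤ |C| * d1 (pt M e') (pt M e) :=
            mul_le_mul_of_nonneg_right (le_abs_self C) (d1_nonneg _ _)
        _ ≤ |C| * (m * (1 / (2 * M))) :=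
            mul_le_mul_of_nonneg_left (h7.trans h9) (abs_nonneg C)
    have h10 : |F (sl e) (pt M e') - F (sl e) (pt M e)| < δ := by linarith
    rw [abs_lt] at h10
    by_cases hpos : 0 < F (sl e) (pt M e)
    · have h11 : ¬ 0 < F (sl e) (pt M e') := by
        intro h12
        simp [hpos, h12] at h2
      rw [abs_of_pos hpos] at h3
      rw [abs_of_nonpos (not_lt.1 h11)] at h4
      linarith
    · have h11 : 0 < F (sl e) (pt M e') := by
        by_contra h12
        simp [hpos, h12] at h2
      rw [abs_of_nonpos (not_lt.1 hpos)] at h3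
      rw [abs_of_pos h11] at h4
      linarith

end Pool.Agent.MNS
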